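import Pool.Agent.Q282.TP.Defs
import Mathlib.Analysis.SpecialFunctions.Complex.LogBounds

/-!
# Sums over the primes in dyadic intervals with families of weights
-/

set_option autoImplicit false
set_option linter.unusedSectionVars false

namespace Q282.TC

open Finset NumberField IsDedekindDomain Filter
open Q282.NF Q282.GK Q282.CL Q282.MN Q282.JB Q282.TP
open Q282.BP (PP bx mem_bx card_bx)
open Pool.Agent.H921R2.TatePole (below deg nm nm_eq)

section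

variable {K : Type} [Field K] [NumberField K] {ι : Type} [Fintype ι] [DecidableEq ι] {B : ℝ}

/-- weights -/
lemma locZ_weight {val : HeightOneSpectrum (𝓞 K) → (ι → 𝓞 K) → ℝ} (h : LocZ K ι B val)
    (w : HeightOneSpectrum (𝓞 K) → ℝ) (hw : ∀ v, |w v| ≤ 1) : LocZ K ι B (fun v t => w v * val v t) := by
  intro v
  obtain ⟨F, i1, i2, π, G, hπ, hch, hcard, hval, hbd, hmn⟩ := h v
  refine ⟨F, i1, i2, π, fun u => w v * G u, hπ, hch, hcard, fun t => by
    show w v * val v t = w v * G (fun i => π (t i))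
    rw [hval], fun u => ?_, ?_⟩
  · rw [abs_mul]
    calc |w v| * |G u| ≤ 1 * (B / Fintype.card F) := mul_le_mul (hw v) (hbd u) (abs_nonneg _) (by norm_num)
      _ = _ := one_mul _
  · rw [av_mul, abs_mul]
    calc |w v| * |av G| ≤ 1 * (B / (Fintype.card F : ℝ) ^ (3 / 2 : ℝ)) := mul_le_mul (hw v) hmn (abs_nonneg _) (by norm_num)
      _ = _ := one_mul _

lemma locZ_mono {val : HeightOneSpectrum (𝓞 K) → (ι → 𝓞 K) → ℝ} (h : LocZ K ι B val) {B' : ℝ} (hBB : B ≤ B') : LocZ K ι B' val := by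
  intro v
  obtain ⟨F, i1, i2, π, G, hπ, hch, hcard, hval, hbd, hmn⟩ := h v
  refine ⟨F, i1, i2, π, G, hπ, hch, hcard, hval, fun u => (hbd u).trans ?_, hmn.trans ?_⟩
  · exact div_le_div_of_nonneg_right hBB (Nat.cast_nonneg _)
  · exact div_le_div_of_nonneg_right hBB (by positivity)

/-- the number of the primes -/
lemma card_SX (X : ℕ) : ((SX K X).card : ℝ) ≤ Module.finrank ℚ K * X := by
  classical
  have h1 : (SX K X).card = ∑ p ∈ PP X, ((SX K X).filter (fun v => (below v : ℕ) = p)).card := by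
    refine card_eq_sum_card_fiberwise ?_
    intro v hv
    rw [mem_coe, mem_SX, norm_eq] at hv
    rw [mem_coe]
    unfold BP.PP
    rw [mem_filter, mem_Icc]
    exact ⟨⟨(below v).prop.one_lt.le, (Nat.le_self_pow (nm_eq v).2.1.ne' _).trans hv⟩, (below v).prop⟩
  have h2 : ∀ p ∈ PP X, (((SX K X).filter (fun v => (below v : ℕ) = p)).card : ℝ) ≤ Module.finrank ℚ K := by
    intro p hp
    obtain ⟨P, hP⟩ : ∃ P : Nat.Primes, (P : ℕ) = p := ⟨⟨p, (mem_filter.1 hp).2⟩, rfl⟩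
    subst hP
    have h3 : ((SX K X).filter (fun v => (below v : ℕ) = P)).card ≤ (univ : Finset {v : HeightOneSpectrum (𝓞 K) // below v = P}).card := by
      refine card_le_card_of_surjOn (fun x => x.1) ?_
      intro v hv
      rw [mem_coe, mem_filter] at hv
      exact ⟨⟨v, Subtype.ext hv.2⟩, mem_coe.2 (mem_univ _), rfl⟩
    have h4 := fib_card (K := K) P
    rw [← card_univ] at h4
    refine le_trans ?_ h4
    exact_mod_cast h3
  rw [h1]
  push_cast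
  refine (sum_le_sum h2).trans ?_
  rw [sum_const, nsmul_eq_mul, mul_comm]
  refine mul_le_mul_of_nonneg_left ?_ (Nat.cast_nonneg _)
  have h5 : (PP X).card ≤ X := by
    unfold BP.PP
    refine (card_filter_le _ _).trans ?_
    rw [Nat.card_Icc]
    omega
  exact_mod_cast h5

lemma SX_mono {X Y : ℕ} (h : X ≤ Y) : SX K X ⊆ SX K Y := by
  intro v hv
  rw [mem_SX] at hv ⊢
  omega

/-- the sum over the primes with `X < N v ≤ Y` -/
lemma sum_diff {M : Type} [AddCommGroup M] (F : HeightOneSpectrum (𝓞 K) → M) {X Y : ℕ} (h : X ≤ Y) :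
    ∑ v ∈ SX K Y, F v - ∑ v ∈ SX K X, F v = ∑ v ∈ (SX K Y).filter (fun v => X < Ideal.absNorm v.asIdeal), F v := by
  classical
  rw [sub_eq_iff_eq_add, add_comm]
  have h1 : (SX K Y).filter (fun v => ¬ X < Ideal.absNorm v.asIdeal) = SX K X := by
    ext v
    rw [mem_filter, mem_SX, mem_SX]
    omega
  rw [← h1, add_comm]
  exact (sum_filter_add_sum_filter_not _ _ _).symm

end

open Classical in
/-- the exceptional set of a dyadic interval for a finite family of weights -/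
lemma bad_family (K : Type) [Field K] [NumberField K] (ι : Type) [Fintype ι] [DecidableEq ι] (B : ℝ) (hB : 0 < B) (A η : ℝ) (hA : 0 < A)
    (hη : 0 < η) (k : ℕ) (hk : 1 ≤ k) (hkη : A + 4 ≤ 2 * k * η) :
    ∃ C₁ : ℝ, 0 ≤ C₁ ∧ ∃ C : ℝ, 0 ≤ C ∧ ∀ (b : Fin (Module.finrank ℚ K) → 𝓞 K), (∀ x : 𝓞 K, ∃ a : Fin (Module.finrank ℚ K) → ℤ, x = ∑ j, (a j : 𝓞 K) * b j) →
    ∀ val : HeightOneSpectrum (𝓞 K) → (ι → 𝓞 K) → ℝ, LocZ K ι B val → ∀ Ω : Finset (HeightOneSpectrum (𝓞 K) → ℝ), (∀ w ∈ Ω, ∀ v, |w v| ≤ 1) →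
    ∀ j : ℕ, ∀ T : ℝ, 0 < T → 2 * Fintype.card (ι × Fin (Module.finrank ℚ K)) * ((2 : ℝ) ^ (j + 1)) ^ (5 * k) ≤ T →
    ∀ (N : ι × Fin (Module.finrank ℚ K) → ℤ) (L : ι × Fin (Module.finrank ℚ K) → ℕ), (∀ i, T ≤ L i) →
      (((kbox N L).filter fun n => ∃ w ∈ Ω, ∃ X : ℕ, 2 ^ j ≤ X ∧ X ≤ 2 ^ (j + 1) ∧ ((2 : ℝ) ^ (-(1 / 2 - η))) ^ j + C₁ / Real.sqrt ((2 : ℝ) ^ j) <
        |∑ v ∈ SX K X, w v * val v (comb b n) - ∑ v ∈ SX K (2 ^ j), w v * val v (comb b n)|).card : ℝ) ≤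
      Ω.card * (C * ((2 : ℝ) ^ (-(A + 1))) ^ j * ∏ i, (L i : ℝ)) := by
  obtain ⟨C₁, hC₁, C, hC, h⟩ := bad_block K ι B hB A η hA hη k hk hkη
  refine ⟨C₁, hC₁, C, hC, fun b hb val hloc Ω hΩ j T hT0 hT N L hL => ?_⟩
  have h1 : ((kbox N L).filter fun n => ∃ w ∈ Ω, ∃ X : ℕ, 2 ^ j ≤ X ∧ X ≤ 2 ^ (j + 1) ∧ ((2 : ℝ) ^ (-(1 / 2 - η))) ^ j + C₁ / Real.sqrt ((2 : ℝ) ^ j) <
        |∑ v ∈ SX K X, w v * val v (comb b n) - ∑ v ∈ SX K (2 ^ j), w v * val v (comb b n)|) ⊆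
      Ω.biUnion fun w => (kbox N L).filter fun n => ∃ X : ℕ, 2 ^ j ≤ X ∧ X ≤ 2 ^ (j + 1) ∧ ((2 : ℝ) ^ (-(1 / 2 - η))) ^ j + C₁ / Real.sqrt ((2 : ℝ) ^ j) <
        |∑ v ∈ SX K X, w v * val v (comb b n) - ∑ v ∈ SX K (2 ^ j), w v * val v (comb b n)| := by
    intro n hn
    rw [mem_filter] at hn
    obtain ⟨hn1, w, hw, hX⟩ := hn
    rw [mem_biUnion]
    exact ⟨w, hw, mem_filter.2 ⟨hn1, hX⟩⟩
  have h2 : ∀ w ∈ Ω, (((kbox N L).filter fun n => ∃ X : ℕ, 2 ^ j ≤ X ∧ X ≤ 2 ^ (j + 1) ∧ ((2 : ℝ) ^ (-(1 / 2 - η))) ^ j + C₁ / Real.sqrt ((2 : ℝ) ^ j) <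
        |∑ v ∈ SX K X, w v * val v (comb b n) - ∑ v ∈ SX K (2 ^ j), w v * val v (comb b n)|).card : ℝ) ≤ C * ((2 : ℝ) ^ (-(A + 1))) ^ j * ∏ i, (L i : ℝ) := by
    intro w hw
    exact h b hb (fun v t => w v * val v t) (locZ_weight hloc w (hΩ w hw)) j T hT0 hT N L hL _ (filter_subset _ _) fun n hn => (mem_filter.1 hn).2
  calc _ ≤ ∑ w ∈ Ω, (((kbox N L).filter fun n => ∃ X : ℕ, 2 ^ j ≤ X ∧ X ≤ 2 ^ (j + 1) ∧ ((2 : ℝ) ^ (-(1 / 2 - η))) ^ j + C₁ / Real.sqrt ((2 : ℝ) ^ j) <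
        |∑ v ∈ SX K X, w v * val v (comb b n) - ∑ v ∈ SX K (2 ^ j), w v * val v (comb b n)|).card : ℝ) := by
        exact_mod_cast (card_le_card h1).trans card_biUnion_le
    _ ≤ ∑ _w ∈ Ω, C * ((2 : ℝ) ^ (-(A + 1))) ^ j * ∏ i, (L i : ℝ) := sum_le_sum h2
    _ = _ := by rw [sum_const, nsmul_eq_mul]

/-- the character `q ^ (-i t)` -/
noncomputable def chr {K : Type} [Field K] [NumberField K] (t : ℝ) (v : HeightOneSpectrum (𝓞 K)) : ℂ :=
  Complex.exp (-(t * Real.log (Ideal.absNorm v.asIdeal) : ℝ) * Complex.I)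

lemma norm_chr {K : Type} [Field K] [NumberField K] (t : ℝ) (v : HeightOneSpectrum (𝓞 K)) : ‖chr t v‖ = 1 := by
  unfold chr
  rw [← Complex.ofReal_neg]
  exact Complex.norm_exp_ofReal_mul_I _

lemma chr_sub {K : Type} [Field K] [NumberField K] (t t' : ℝ) (v : HeightOneSpectrum (𝓞 K)) :
    ‖chr t v - chr t' v‖ ≤ |t - t'| * Real.log (Ideal.absNorm v.asIdeal) := by
  have hl : 0 ≤ Real.log (Ideal.absNorm v.asIdeal) := Real.log_nonneg (by have := two_le v; linarith)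
  have e : chr t v - chr t' v = chr t' v * (Complex.exp (((t' - t) * Real.log (Ideal.absNorm v.asIdeal) : ℝ) * Complex.I) - 1) := by
    rw [mul_sub, mul_one]
    congr 1
    unfold chr
    rw [← Complex.exp_add]
    congr 1
    push_cast
    ring
  rw [e, norm_mul, norm_chr, one_mul]
  have h1 := Real.norm_exp_I_mul_ofReal_sub_one_le (x := (t' - t) * Real.log (Ideal.absNorm v.asIdeal))
  rw [mul_comm Complex.I] at h1
  refine h1.trans (le_of_eq ?_)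
  rw [Real.norm_eq_abs, abs_mul, abs_of_nonneg hl, abs_sub_comm]

/-- Abel's summation -/
lemma abel (D S : ℕ → ℂ) (w : ℕ → ℝ) (X : ℕ) (h : ∀ m, X ≤ m → D (m + 1) - D m = (w (m + 1) : ℂ) * (S (m + 1) - S m)) (m : ℕ) (hm : X ≤ m) :
    D m - D X = (w m : ℂ) * (S m - S X) - ∑ i ∈ Ico X m, ((w (i + 1) - w i : ℝ) : ℂ) * (S i - S X) := by
  induction m, hm using Nat.le_induction with
  | base => simp
  | succ m hm ih =>
    rw [sum_Ico_succ_top hm]
    have h1 := h m hm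
    have e : D (m + 1) - D X = (D (m + 1) - D m) + (D m - D X) := by ring
    rw [e, h1, ih]
    push_cast
    ring

lemma abel_le (D S : ℕ → ℂ) (w : ℕ → ℝ) (X X' : ℕ) (hX : X ≤ X') (h : ∀ m, X ≤ m → D (m + 1) - D m = (w (m + 1) : ℂ) * (S (m + 1) - S m))
    (W Λ : ℝ) (hΛ : 0 ≤ Λ) (hS : ∀ m, X ≤ m → m ≤ X' → ‖S m - S X‖ ≤ Λ) (hw : ∀ m, X ≤ m → m ≤ X' → 0 ≤ w m ∧ w m ≤ W)
    (hmon : (∀ m, X ≤ m → m < X' → w m ≤ w (m + 1)) ∨ ∀ m, X ≤ m → m < X' → w (m + 1) ≤ w m) : ‖D X' - D X‖ ≤ 2 * W * Λ := by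
  rw [abel D S w X h X' hX]
  have h1 : ‖(w X' : ℂ) * (S X' - S X)‖ ≤ w X' * Λ := by
    rw [norm_mul, Complex.norm_real, Real.norm_eq_abs, abs_of_nonneg (hw X' hX le_rfl).1]
    exact mul_le_mul_of_nonneg_left (hS X' hX le_rfl) (hw X' hX le_rfl).1
  have h2 : ‖∑ i ∈ Ico X X', ((w (i + 1) - w i : ℝ) : ℂ) * (S i - S X)‖ ≤ (∑ i ∈ Ico X X', |w (i + 1) - w i|) * Λ := by
    refine (norm_sum_le _ _).trans ?_
    rw [sum_mul]
    refine sum_le_sum fun i hi => ?_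
    rw [mem_Ico] at hi
    rw [norm_mul, Complex.norm_real, Real.norm_eq_abs]
    exact mul_le_mul_of_nonneg_left (hS i hi.1 hi.2.le) (abs_nonneg _)
  have h3 : ∑ i ∈ Ico X X', |w (i + 1) - w i| = |w X' - w X| := by
    have htel : ∑ i ∈ Ico X X', (w (i + 1) - w i) = w X' - w X := sum_Ico_sub w hX
    rcases hmon with hm | hm
    · have h4 : ∑ i ∈ Ico X X', |w (i + 1) - w i| = ∑ i ∈ Ico X X', (w (i + 1) - w i) := by
        refine sum_congr rfl fun i hi => ?_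
        rw [mem_Ico] at hi
        exact abs_of_nonneg (sub_nonneg.2 (hm i hi.1 hi.2))
      have h5 : 0 ≤ ∑ i ∈ Ico X X', (w (i + 1) - w i) := by
        rw [← h4]
        exact sum_nonneg fun _ _ => abs_nonneg _
      rw [h4, ← htel, abs_of_nonneg h5]
    · have h4 : ∑ i ∈ Ico X X', |w (i + 1) - w i| = -∑ i ∈ Ico X X', (w (i + 1) - w i) := by
        rw [← sum_neg_distrib]
        refine sum_congr rfl fun i hi => ?_
        rw [mem_Ico] at hi
        exact abs_of_nonpos (sub_nonpos.2 (hm i hi.1 hi.2))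
      have h5 : 0 ≤ -∑ i ∈ Ico X X', (w (i + 1) - w i) := by
        rw [← h4]
        exact sum_nonneg fun _ _ => abs_nonneg _
      rw [h4, htel] at *
      rw [abs_of_nonpos (by linarith)]
  have h4 : w X' + |w X' - w X| ≤ 2 * W := by
    have h5 := hw X' hX le_rfl
    have h6 := hw X le_rfl hX
    rcases abs_cases (w X' - w X) with ⟨h7, _⟩ | ⟨h7, _⟩ <;> rw [h7] <;> linarith
  refine (norm_sub_le _ _).trans ((add_le_add h1 h2).trans ?_)
  rw [h3, ← add_mul]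
  exact mul_le_mul_of_nonneg_right h4 hΛ

/-- the chain of the dyadic intervals -/
lemma chain (F : ℕ → ℂ) (a C : ℝ) (ha : 0 < a) (hC : 0 ≤ C) (j₀ J : ℕ)
    (h : ∀ j, j₀ ≤ j → j ≤ J → ∀ X X', 2 ^ j ≤ X → X ≤ X' → X' ≤ 2 ^ (j + 1) → ‖F X' - F X‖ ≤ C * (X : ℝ) ^ (-a)) (X X' : ℕ) (hX0 : 1 ≤ X)
    (hX : 2 ^ j₀ ≤ X) (hXX : X ≤ X') (hX' : X' < 2 ^ (J + 1)) :
    ‖F X' - F X‖ ≤ C * (1 + 1 / (1 - (2 : ℝ) ^ (-a))) * (X : ℝ) ^ (-a) := by
  have hr0 : 0 < (2 : ℝ) ^ (-a) := by positivity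
  have hr1 : (2 : ℝ) ^ (-a) < 1 := Real.rpow_lt_one_of_one_lt_of_neg (by norm_num) (by linarith)
  obtain ⟨r, hr⟩ : ∃ r : ℝ, r = (2 : ℝ) ^ (-a) := ⟨_, rfl⟩
  rw [← hr] at hr0 hr1 ⊢
  have h1r : 0 < 1 - r := by linarith
  -- from the powers of two
  have hpow : ∀ n j, j₀ ≤ j → ∀ Y, 2 ^ j ≤ Y → Y < 2 ^ (J + 1) → Nat.log 2 Y = j + n → ‖F Y - F (2 ^ j)‖ ≤ C / (1 - r) * r ^ j := by
    intro n
    induction n with
    | zero =>
      intro j hj Y hY hYJ hlog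
      have hY1 : Y ≠ 0 := by
        have : 0 < 2 ^ j := by positivity
        omega
      have h1 : Y < 2 ^ (j + 1) := by
        have := Nat.lt_pow_succ_log_self (b := 2) (by norm_num) Y
        rwa [hlog, add_zero] at this
      have hjJ : j ≤ J := by
        by_contra hlt
        push Not at hlt
        have : 2 ^ (J + 1) ≤ 2 ^ j := Nat.pow_le_pow_right (by norm_num) hlt
        omega
      have h2 := h j hj hjJ (2 ^ j) Y le_rfl hY h1.le
      refine h2.trans ?_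
      push_cast
      rw [← rpow_two, ← hr, div_mul_eq_mul_div, le_div_iff₀ h1r]
      have : 0 ≤ C * r ^ j * r := by positivity
      linarith
    | succ n ih =>
      intro j hj Y hY hYJ hlog
      have hY1 : Y ≠ 0 := by
        have : 0 < 2 ^ j := by positivity
        omega
      have h1 : 2 ^ (j + 1) ≤ Y := by
        have h2 := Nat.pow_log_le_self 2 hY1
        rw [hlog] at h2
        exact (Nat.pow_le_pow_right (by norm_num) (by omega)).trans h2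
      have hjJ : j ≤ J := by
        by_contra hlt
        push Not at hlt
        have : 2 ^ (J + 1) ≤ 2 ^ j := Nat.pow_le_pow_right (by norm_num) hlt
        omega
      have h2 := ih (j + 1) (by omega) Y h1 hYJ (by omega)
      have h3 := h j hj hjJ (2 ^ j) (2 ^ (j + 1)) le_rfl (Nat.pow_le_pow_right (by norm_num) (by omega)) le_rfl
      have e : F Y - F (2 ^ j) = (F Y - F (2 ^ (j + 1))) + (F (2 ^ (j + 1)) - F (2 ^ j)) := by ring
      rw [e]
      refine (norm_add_le _ _).trans ((add_le_add h2 h3).trans ?_)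
      push_cast
      rw [← rpow_two, ← hr, pow_succ]
      have e2 : C / (1 - r) * (r ^ j * r) + C * r ^ j = C / (1 - r) * r ^ j * (r + (1 - r)) := by
        field_simp
      rw [e2]
      linarith
  obtain ⟨j, hj⟩ : ∃ j : ℕ, j = Nat.log 2 X := ⟨_, rfl⟩
  have hjX : 2 ^ j ≤ X := by rw [hj]; exact Nat.pow_log_le_self 2 (by omega)
  have hXj : X < 2 ^ (j + 1) := by rw [hj]; exact Nat.lt_pow_succ_log_self (by norm_num) X
  have hj₀ : j₀ ≤ j := by
    by_contra hlt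
    push Not at hlt
    have : 2 ^ (j + 1) ≤ 2 ^ j₀ := Nat.pow_le_pow_right (by norm_num) hlt
    omega
  have hjJ : j ≤ J := by
    by_contra hlt
    push Not at hlt
    have : 2 ^ (J + 1) ≤ 2 ^ j := Nat.pow_le_pow_right (by norm_num) hlt
    omega
  have hXr : (1 : ℝ) ≤ X := by exact_mod_cast hX0
  have hXa : 0 < (X : ℝ) ^ (-a) := by positivity
  rcases le_or_gt X' (2 ^ (j + 1)) with hle | hgt
  · refine (h j hj₀ hjJ X X' hjX hXX hle).trans ?_
    have : 0 ≤ C * (1 / (1 - r)) * (X : ℝ) ^ (-a) := by positivity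
    have e : C * (1 + 1 / (1 - r)) * (X : ℝ) ^ (-a) = C * (X : ℝ) ^ (-a) + C * (1 / (1 - r)) * (X : ℝ) ^ (-a) := by ring
    rw [e]
    linarith
  · have h1 := h j hj₀ hjJ X (2 ^ (j + 1)) hjX hXj.le le_rfl
    have h2 := hpow (Nat.log 2 X' - (j + 1)) (j + 1) (by omega) X' hgt.le hX' (by
      have : j + 1 ≤ Nat.log 2 X' := by
        exact (Nat.le_log_iff_pow_le (by norm_num) (by omega)).2 hgt.le
      omega)
    have e : F X' - F X = (F X' - F (2 ^ (j + 1))) + (F (2 ^ (j + 1)) - F X) := by ring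
    rw [e]
    refine (norm_add_le _ _).trans ((add_le_add h2 h1).trans ?_)
    have h3 : r ^ (j + 1) ≤ (X : ℝ) ^ (-a) := by
      rw [hr, rpow_two]
      refine Real.rpow_le_rpow_of_nonpos (by linarith) ?_ (by linarith)
      exact_mod_cast hXj.le
    have h4 : C / (1 - r) * r ^ (j + 1) ≤ C / (1 - r) * (X : ℝ) ^ (-a) := mul_le_mul_of_nonneg_left h3 (by positivity)
    have e2 : C * (1 + 1 / (1 - r)) * (X : ℝ) ^ (-a) = C / (1 - r) * (X : ℝ) ^ (-a) + C * (X : ℝ) ^ (-a) := by ring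
    rw [e2]
    linarith

end Q282.TC
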