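import Pool.Agent.Q282.TC.Grid

/-!
# Convergence in the half plane for families of twists
-/

set_option autoImplicit false
set_option linter.unusedSectionVars false

namespace Q282.TC

open Finset NumberField IsDedekindDomain Filter
open Q282.NF Q282.GK Q282.CL Q282.MN Q282.JB Q282.TP
open Q282.BP (PP bx mem_bx card_bx)
open Pool.Agent.H921R2.TatePole (below deg nm nm_eq)

lemma lin_le (j : ℕ) : ((j : ℝ) + 1) * (1 / (2 : ℝ) ^ j) ≤ 4 * (1 / Real.sqrt ((2 : ℝ) ^ j)) := by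
  have h2 : (1.4 : ℝ) ≤ Real.sqrt 2 := by
    rw [Real.le_sqrt (by norm_num) (by norm_num)]
    norm_num
  have h1 : 1 + (j : ℝ) * (0.4 : ℝ) ≤ (1 + 0.4) ^ j := one_add_mul_le_pow (by norm_num) j
  have h3 : ((1 : ℝ) + 0.4) ^ j ≤ Real.sqrt 2 ^ j := pow_le_pow_left₀ (by norm_num) (by linarith) j
  have h4 : Real.sqrt ((2 : ℝ) ^ j) = Real.sqrt 2 ^ j := by
    rw [← Real.sqrt_sq (by positivity : 0 ≤ Real.sqrt 2 ^ j), ← pow_mul, mul_comm j 2, pow_mul, Real.sq_sqrt (by norm_num)]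
  have h5 : (2 : ℝ) ^ j = Real.sqrt 2 ^ j * Real.sqrt 2 ^ j := by
    rw [← mul_pow, Real.mul_self_sqrt (by norm_num)]
  rw [h4, h5]
  have h6 : 0 < Real.sqrt 2 ^ j := by positivity
  have h7 : ((j : ℝ) + 1) ≤ 4 * Real.sqrt 2 ^ j := by
    have : (0 : ℝ) ≤ j := Nat.cast_nonneg j
    linarith
  rw [mul_one_div, mul_one_div, div_le_div_iff₀ (by positivity) h6]
  have h8 := mul_le_mul_of_nonneg_right h7 h6.le
  nlinarith

/-- the sum with a character -/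
noncomputable def cs {K : Type} [Field K] [NumberField K] (ψ : HeightOneSpectrum (𝓞 K) → ℂ) (t : ℝ) (x : HeightOneSpectrum (𝓞 K) → ℝ) (X : ℕ) : ℂ :=
  ∑ v ∈ SX K X, ψ v * chr t v * x v

open Classical in
/-- the weights -/
noncomputable def wts {K : Type} [Field K] [NumberField K] (Ψ : Finset (HeightOneSpectrum (𝓞 K) → ℂ)) (j : ℕ) (M : ℕ) : Finset (HeightOneSpectrum (𝓞 K) → ℝ) :=
  ((Ψ ×ˢ Finset.Icc (-(M : ℤ)) M).image fun x v => (x.1 v * chr ((x.2 : ℝ) / 2 ^ j) v).re) ∪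
    ((Ψ ×ˢ Finset.Icc (-(M : ℤ)) M).image fun x v => (x.1 v * chr ((x.2 : ℝ) / 2 ^ j) v).im)

lemma wts_card {K : Type} [Field K] [NumberField K] (Ψ : Finset (HeightOneSpectrum (𝓞 K) → ℂ)) (j M : ℕ) (hM : 1 ≤ M) :
    ((wts Ψ j M).card : ℝ) ≤ 6 * Ψ.card * M := by
  classical
  have h1 : (wts Ψ j M).card ≤ 2 * (Ψ.card * (2 * M + 1)) := by
    unfold wts
    refine (card_union_le _ _).trans ?_
    have h2 : (Ψ ×ˢ Finset.Icc (-(M : ℤ)) M).card = Ψ.card * (2 * M + 1) := by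
      rw [card_product, Int.card_Icc]
      congr 1
      omega
    have h3 := card_image_le (s := Ψ ×ˢ Finset.Icc (-(M : ℤ)) M) (f := fun x v => (x.1 v * chr ((x.2 : ℝ) / 2 ^ j) v).re)
    have h4 := card_image_le (s := Ψ ×ˢ Finset.Icc (-(M : ℤ)) M) (f := fun x v => (x.1 v * chr ((x.2 : ℝ) / 2 ^ j) v).im)
    omega
  have h5 : ((wts Ψ j M).card : ℝ) ≤ 2 * (Ψ.card * (2 * M + 1)) := by exact_mod_cast h1
  refine h5.trans ?_
  have hMr : (1 : ℝ) ≤ M := by exact_mod_cast hM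
  have hΨ : (0 : ℝ) ≤ Ψ.card := Nat.cast_nonneg _
  nlinarith [mul_nonneg hΨ (by linarith : (0 : ℝ) ≤ M - 1)]

lemma wts_le {K : Type} [Field K] [NumberField K] {Ψ : Finset (HeightOneSpectrum (𝓞 K) → ℂ)} (hΨ : ∀ ψ ∈ Ψ, ∀ v, ‖ψ v‖ ≤ 1) (j M : ℕ)
    (w : HeightOneSpectrum (𝓞 K) → ℝ) (hw : w ∈ wts Ψ j M) (v : HeightOneSpectrum (𝓞 K)) : |w v| ≤ 1 := by
  classical
  unfold wts at hw
  rw [mem_union, mem_image, mem_image] at hw
  have key : ∀ x ∈ Ψ ×ˢ Finset.Icc (-(M : ℤ)) M, ‖x.1 v * chr ((x.2 : ℝ) / 2 ^ j) v‖ ≤ 1 := by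
    intro x hx
    rw [mem_product] at hx
    rw [norm_mul, norm_chr, mul_one]
    exact hΨ x.1 hx.1 v
  rcases hw with ⟨x, hx, rfl⟩ | ⟨x, hx, rfl⟩
  · exact (Complex.abs_re_le_norm _).trans (key x hx)
  · exact (Complex.abs_im_le_norm _).trans (key x hx)

/-- one dyadic interval: if all weighted sums are small, so are the sums for all characters -/
lemma block_good {K : Type} [Field K] [NumberField K] (B : ℝ) (hB : 0 < B) (x : HeightOneSpectrum (𝓞 K) → ℝ) (hx : ∀ v, |x v| ≤ B / Ideal.absNorm v.asIdeal)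
    {Ψ : Finset (HeightOneSpectrum (𝓞 K) → ℂ)} (hΨ : ∀ ψ ∈ Ψ, ∀ v, ‖ψ v‖ ≤ 1) (j M : ℕ) (δ : ℝ)
    (h : ∀ w ∈ wts Ψ j M, ∀ X : ℕ, 2 ^ j ≤ X → X ≤ 2 ^ (j + 1) → |∑ v ∈ SX K X, w v * x v - ∑ v ∈ SX K (2 ^ j), w v * x v| ≤ δ)
    (ψ : HeightOneSpectrum (𝓞 K) → ℂ) (hψ : ψ ∈ Ψ) (t : ℝ) (ht : |t| * 2 ^ j ≤ M) (X : ℕ) (hX : 2 ^ j ≤ X) (hX' : X ≤ 2 ^ (j + 1)) :
    ‖cs ψ t x X - cs ψ t x (2 ^ j)‖ ≤ 2 * δ + 8 * (Module.finrank ℚ K * B) * (1 / Real.sqrt ((2 : ℝ) ^ j)) := by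
  classical
  obtain ⟨l, hl⟩ : ∃ l : ℤ, l = ⌊t * 2 ^ j⌋ := ⟨_, rfl⟩
  have h2j : (0 : ℝ) < 2 ^ j := by positivity
  have htl : |t - (l : ℝ) / 2 ^ j| ≤ 1 / 2 ^ j := by
    have h1 : t - (l : ℝ) / 2 ^ j = (t * 2 ^ j - l) / 2 ^ j := by field_simp
    rw [h1, abs_div, abs_of_pos h2j]
    refine div_le_div_of_nonneg_right ?_ h2j.le
    rw [hl]
    have h2 := Int.floor_le (t * 2 ^ j)
    have h3 := Int.lt_floor_add_one (t * 2 ^ j)
    rw [abs_of_nonneg (by linarith)]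
    linarith
  have hlM : l ∈ Finset.Icc (-(M : ℤ)) M := by
    have h1 : |t * 2 ^ j| ≤ M := by rw [abs_mul, abs_of_pos h2j]; exact ht
    rw [abs_le] at h1
    rw [mem_Icc, hl]
    refine ⟨Int.le_floor.2 ?_, ?_⟩
    · push_cast
      exact h1.1
    · have h2 := Int.floor_le (t * 2 ^ j)
      have h3 : ((⌊t * 2 ^ j⌋ : ℤ) : ℝ) ≤ ((M : ℤ) : ℝ) := by
        push_cast
        linarith [h1.2]
      exact_mod_cast h3
  -- the point of the grid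
  have hre := h (fun v => (ψ v * chr ((l : ℝ) / 2 ^ j) v).re) (by
    unfold wts
    rw [mem_union]
    exact Or.inl (mem_image.2 ⟨(ψ, l), mem_product.2 ⟨hψ, hlM⟩, rfl⟩)) X hX hX'
  have him := h (fun v => (ψ v * chr ((l : ℝ) / 2 ^ j) v).im) (by
    unfold wts
    rw [mem_union]
    exact Or.inr (mem_image.2 ⟨(ψ, l), mem_product.2 ⟨hψ, hlM⟩, rfl⟩)) X hX hX'
  have hsum : ∀ Y : ℕ, (cs ψ ((l : ℝ) / 2 ^ j) x Y).re = ∑ v ∈ SX K Y, (ψ v * chr ((l : ℝ) / 2 ^ j) v).re * x v ∧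
      (cs ψ ((l : ℝ) / 2 ^ j) x Y).im = ∑ v ∈ SX K Y, (ψ v * chr ((l : ℝ) / 2 ^ j) v).im * x v := by
    intro Y
    unfold cs
    rw [Complex.re_sum, Complex.im_sum]
    constructor
    · exact sum_congr rfl fun v _ => by rw [Complex.re_mul_ofReal]
    · exact sum_congr rfl fun v _ => by rw [Complex.im_mul_ofReal]
  have hgrid : ‖cs ψ ((l : ℝ) / 2 ^ j) x X - cs ψ ((l : ℝ) / 2 ^ j) x (2 ^ j)‖ ≤ 2 * δ := by
    refine (Complex.norm_le_abs_re_add_abs_im _).trans ?_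
    rw [Complex.sub_re, Complex.sub_im, (hsum X).1, (hsum X).2, (hsum (2 ^ j)).1, (hsum (2 ^ j)).2]
    linarith
  -- the distance to the grid
  have hdist : ‖(cs ψ t x X - cs ψ t x (2 ^ j)) - (cs ψ ((l : ℝ) / 2 ^ j) x X - cs ψ ((l : ℝ) / 2 ^ j) x (2 ^ j))‖ ≤
      8 * (Module.finrank ℚ K * B) * (1 / Real.sqrt ((2 : ℝ) ^ j)) := by
    have e1 : (cs ψ t x X - cs ψ t x (2 ^ j)) - (cs ψ ((l : ℝ) / 2 ^ j) x X - cs ψ ((l : ℝ) / 2 ^ j) x (2 ^ j)) =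
        ∑ v ∈ (SX K X).filter (fun v => 2 ^ j < Ideal.absNorm v.asIdeal), ψ v * (chr t v - chr ((l : ℝ) / 2 ^ j) v) * x v := by
      unfold cs
      rw [sum_diff _ hX, sum_diff _ hX, ← sum_sub_distrib]
      exact sum_congr rfl fun v _ => by ring
    rw [e1]
    refine (norm_sum_le _ _).trans ?_
    have h1 : ∀ v ∈ (SX K X).filter (fun v => 2 ^ j < Ideal.absNorm v.asIdeal), ‖ψ v * (chr t v - chr ((l : ℝ) / 2 ^ j) v) * x v‖ ≤
        (1 / 2 ^ j) * ((j : ℝ) + 1) * (B / 2 ^ j) := by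
      intro v hv
      rw [mem_filter, mem_SX] at hv
      have hN1 : (2 : ℝ) ^ j ≤ Ideal.absNorm v.asIdeal := by exact_mod_cast hv.2.le
      have hN2 : (Ideal.absNorm v.asIdeal : ℝ) ≤ 2 ^ (j + 1) := by exact_mod_cast hv.1.trans hX'
      have hNpos : (0 : ℝ) < Ideal.absNorm v.asIdeal := by linarith
      rw [norm_mul, norm_mul, Complex.norm_real, Real.norm_eq_abs]
      have h2 : ‖chr t v - chr ((l : ℝ) / 2 ^ j) v‖ ≤ (1 / 2 ^ j) * ((j : ℝ) + 1) := by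
        refine (chr_sub t _ v).trans ?_
        have h3 : Real.log (Ideal.absNorm v.asIdeal) ≤ (j : ℝ) + 1 := by
          refine (Real.log_le_log hNpos hN2).trans ?_
          rw [Real.log_pow]
          have h4 : Real.log 2 ≤ 1 := by
            have := Real.log_two_lt_d9
            linarith
          push_cast
          have : (0 : ℝ) ≤ (j : ℝ) + 1 := by positivity
          nlinarith
        exact mul_le_mul htl h3 (Real.log_nonneg (by have := two_le v; linarith)) (by positivity)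
      have h3 : |x v| ≤ B / 2 ^ j := (hx v).trans (div_le_div_of_nonneg_left hB.le h2j hN1)
      have h4 : ‖ψ v‖ * ‖chr t v - chr ((l : ℝ) / 2 ^ j) v‖ ≤ (1 / 2 ^ j) * ((j : ℝ) + 1) := by
        calc ‖ψ v‖ * ‖chr t v - chr ((l : ℝ) / 2 ^ j) v‖ ≤ 1 * ((1 / 2 ^ j) * ((j : ℝ) + 1)) :=
              mul_le_mul (hΨ ψ hψ v) h2 (norm_nonneg _) (by norm_num)
          _ = _ := one_mul _
      exact mul_le_mul h4 h3 (abs_nonneg _) (by positivity)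
    refine (sum_le_sum h1).trans ?_
    rw [sum_const, nsmul_eq_mul]
    have h2 : (((SX K X).filter (fun v => 2 ^ j < Ideal.absNorm v.asIdeal)).card : ℝ) ≤ Module.finrank ℚ K * 2 ^ (j + 1) := by
      have h3 : ((SX K X).filter (fun v => 2 ^ j < Ideal.absNorm v.asIdeal)).card ≤ (SX K (2 ^ (j + 1))).card :=
        card_le_card ((filter_subset _ _).trans (SX_mono hX'))
      have h4 := card_SX (K := K) (2 ^ (j + 1))
      push_cast at h4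
      refine le_trans ?_ h4
      exact_mod_cast h3
    refine (mul_le_mul_of_nonneg_right h2 (by positivity)).trans ?_
    have h3 := lin_le j
    have e2 : (Module.finrank ℚ K : ℝ) * 2 ^ (j + 1) * (1 / 2 ^ j * ((j : ℝ) + 1) * (B / 2 ^ j)) =
        2 * (Module.finrank ℚ K * B) * (((j : ℝ) + 1) * (1 / 2 ^ j)) := by
      rw [pow_succ]
      field_simp
    rw [e2]
    refine (mul_le_mul_of_nonneg_left h3 (by positivity)).trans (le_of_eq ?_)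
    ring
  have e3 : cs ψ t x X - cs ψ t x (2 ^ j) = ((cs ψ t x X - cs ψ t x (2 ^ j)) - (cs ψ ((l : ℝ) / 2 ^ j) x X - cs ψ ((l : ℝ) / 2 ^ j) x (2 ^ j))) +
      (cs ψ ((l : ℝ) / 2 ^ j) x X - cs ψ ((l : ℝ) / 2 ^ j) x (2 ^ j)) := by ring
  rw [e3]
  refine (norm_add_le _ _).trans ?_
  linarith

/-- in the half plane -/
lemma block_half {K : Type} [Field K] [NumberField K] (B : ℝ) (hB : 0 < B) (x : HeightOneSpectrum (𝓞 K) → ℝ)
    (ψ : HeightOneSpectrum (𝓞 K) → ℂ) (G : HeightOneSpectrum (𝓞 K) → ℂ) (z : ℂ) (hz : 1 / 2 ≤ z.re)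
    (hG : ∀ v, ‖G v - ψ v * (Ideal.absNorm v.asIdeal : ℂ) ^ (1 - z) * x v‖ ≤ B * (Ideal.absNorm v.asIdeal : ℝ) ^ (-(2 * z.re)))
    (j : ℕ) (Λ : ℝ) (hΛ : 0 ≤ Λ) (h : ∀ X : ℕ, 2 ^ j ≤ X → X ≤ 2 ^ (j + 1) → ‖cs ψ z.im x X - cs ψ z.im x (2 ^ j)‖ ≤ Λ)
    (X X' : ℕ) (hX : 2 ^ j ≤ X) (hXX : X ≤ X') (hX' : X' ≤ 2 ^ (j + 1)) :
    ‖∑ v ∈ SX K X', G v - ∑ v ∈ SX K X, G v‖ ≤ 8 * Λ * (X : ℝ) ^ (1 - z.re) + 2 * (Module.finrank ℚ K * B) * (X : ℝ) ^ (1 / 2 - z.re) := by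
  classical
  have h2j : 1 ≤ 2 ^ j := Nat.one_le_two_pow
  have hX1 : 1 ≤ X := h2j.trans hX
  have hXr : (1 : ℝ) ≤ X := by exact_mod_cast hX1
  have hX0 : (0 : ℝ) < X := by linarith
  have hX2 : X' ≤ 2 * X := by
    rw [pow_succ'] at hX'
    omega
  obtain ⟨D, hD⟩ : ∃ D : ℕ → ℂ, D = fun m => ∑ v ∈ SX K m, ψ v * (Ideal.absNorm v.asIdeal : ℂ) ^ (1 - z) * x v := ⟨_, rfl⟩
  have hmain : ‖D X' - D X‖ ≤ 2 * (2 * (X : ℝ) ^ (1 - z.re)) * (2 * Λ) := by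
    refine abel_le D (fun m => cs ψ z.im x m) (fun m => (m : ℝ) ^ (1 - z.re)) X X' hXX ?_ _ _ (by positivity) ?_ ?_ ?_
    · intro m hm
      rw [hD]
      unfold cs
      show ∑ v ∈ SX K (m + 1), ψ v * (Ideal.absNorm v.asIdeal : ℂ) ^ (1 - z) * x v - ∑ v ∈ SX K m, ψ v * (Ideal.absNorm v.asIdeal : ℂ) ^ (1 - z) * x v =
        _ * (∑ v ∈ SX K (m + 1), ψ v * chr z.im v * x v - ∑ v ∈ SX K m, ψ v * chr z.im v * x v)
      rw [sum_diff _ (Nat.le_succ m), sum_diff _ (Nat.le_succ m), mul_sum]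
      refine sum_congr rfl fun v hv => ?_
      rw [mem_filter, mem_SX] at hv
      have hN : Ideal.absNorm v.asIdeal = m + 1 := by omega
      unfold chr
      rw [hN]
      have hm0 : ((m + 1 : ℕ) : ℂ) ≠ 0 := by exact_mod_cast Nat.succ_ne_zero m
      have hmr : (0 : ℝ) < ((m + 1 : ℕ) : ℝ) := by positivity
      have e1 : ((m + 1 : ℕ) : ℂ) ^ (1 - z) = (((((m + 1 : ℕ) : ℝ) ^ (1 - z.re) : ℝ)) : ℂ) *
          Complex.exp (-(z.im * Real.log ((m + 1 : ℕ) : ℝ) : ℝ) * Complex.I) := by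
        rw [Complex.cpow_def_of_ne_zero hm0, Real.rpow_def_of_pos hmr, Complex.ofReal_exp, ← Complex.exp_add]
        congr 1
        have e2 : Complex.log ((m + 1 : ℕ) : ℂ) = ((Real.log ((m + 1 : ℕ) : ℝ) : ℝ) : ℂ) := by
          rw [Complex.ofReal_log hmr.le, Complex.ofReal_natCast]
        rw [e2]
        apply Complex.ext
        · simp
        · simp
          ring
      rw [e1]
      ring
    · intro m hm1 hm2
      have h1 := h m (hX.trans hm1) (hm2.trans hX')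
      have h2 := h X hX (hXX.trans hX')
      have e : cs ψ z.im x m - cs ψ z.im x X = (cs ψ z.im x m - cs ψ z.im x (2 ^ j)) - (cs ψ z.im x X - cs ψ z.im x (2 ^ j)) := by ring
      rw [e]
      refine (norm_sub_le _ _).trans ?_
      linarith
    · intro m hm1 hm2
      have hmr : (X : ℝ) ≤ m := by exact_mod_cast hm1
      have hm2r : (m : ℝ) ≤ 2 * X := by exact_mod_cast hm2.trans hX2
      refine ⟨by positivity, ?_⟩
      show (m : ℝ) ^ (1 - z.re) ≤ 2 * (X : ℝ) ^ (1 - z.re)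
      rcases le_or_gt 1 z.re with hσ | hσ
      · have h1 : (m : ℝ) ^ (1 - z.re) ≤ (X : ℝ) ^ (1 - z.re) := Real.rpow_le_rpow_of_nonpos hX0 hmr (by linarith)
        have : 0 < (X : ℝ) ^ (1 - z.re) := by positivity
        linarith
      · have h1 : (m : ℝ) ^ (1 - z.re) ≤ (2 * X) ^ (1 - z.re) := Real.rpow_le_rpow (by linarith) hm2r (by linarith)
        rw [Real.mul_rpow (by norm_num) hX0.le] at h1
        refine h1.trans (mul_le_mul_of_nonneg_right ?_ (by positivity))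
        calc (2 : ℝ) ^ (1 - z.re) ≤ (2 : ℝ) ^ (1 : ℝ) := Real.rpow_le_rpow_of_exponent_le (by norm_num) (by linarith)
          _ = 2 := Real.rpow_one 2
    · rcases le_or_gt 1 z.re with hσ | hσ
      · right
        intro m hm1 _
        have hm0 : (0 : ℝ) < m := by
          have : 0 < m := by omega
          exact_mod_cast this
        show ((m + 1 : ℕ) : ℝ) ^ (1 - z.re) ≤ (m : ℝ) ^ (1 - z.re)
        refine Real.rpow_le_rpow_of_nonpos hm0 ?_ (by linarith)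
        push_cast
        linarith
      · left
        intro m hm1 _
        show (m : ℝ) ^ (1 - z.re) ≤ ((m + 1 : ℕ) : ℝ) ^ (1 - z.re)
        refine Real.rpow_le_rpow (Nat.cast_nonneg m) ?_ (by linarith)
        push_cast
        linarith
  -- the rest
  have hrest : ‖(∑ v ∈ SX K X', G v - ∑ v ∈ SX K X, G v) - (D X' - D X)‖ ≤ 2 * (Module.finrank ℚ K * B) * (X : ℝ) ^ (1 / 2 - z.re) := by
    have e1 : (∑ v ∈ SX K X', G v - ∑ v ∈ SX K X, G v) - (D X' - D X) =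
        ∑ v ∈ (SX K X').filter (fun v => X < Ideal.absNorm v.asIdeal), (G v - ψ v * (Ideal.absNorm v.asIdeal : ℂ) ^ (1 - z) * x v) := by
      rw [hD]
      show _ - (∑ v ∈ SX K X', ψ v * (Ideal.absNorm v.asIdeal : ℂ) ^ (1 - z) * x v - ∑ v ∈ SX K X, ψ v * (Ideal.absNorm v.asIdeal : ℂ) ^ (1 - z) * x v) = _
      rw [sum_diff _ hXX, sum_diff _ hXX, ← sum_sub_distrib]
    rw [e1]
    refine (norm_sum_le _ _).trans ?_
    have h1 : ∀ v ∈ (SX K X').filter (fun v => X < Ideal.absNorm v.asIdeal), ‖G v - ψ v * (Ideal.absNorm v.asIdeal : ℂ) ^ (1 - z) * x v‖ ≤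
        B * (X : ℝ) ^ (-(2 * z.re)) := by
      intro v hv
      rw [mem_filter, mem_SX] at hv
      refine (hG v).trans (mul_le_mul_of_nonneg_left ?_ hB.le)
      refine Real.rpow_le_rpow_of_nonpos hX0 ?_ (by linarith)
      exact_mod_cast hv.2.le
    refine (sum_le_sum h1).trans ?_
    rw [sum_const, nsmul_eq_mul]
    have h2 : (((SX K X').filter (fun v => X < Ideal.absNorm v.asIdeal)).card : ℝ) ≤ Module.finrank ℚ K * (2 * X) := by
      have h3 : ((SX K X').filter (fun v => X < Ideal.absNorm v.asIdeal)).card ≤ (SX K (2 * X)).card :=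
        card_le_card ((filter_subset _ _).trans (SX_mono hX2))
      have h4 := card_SX (K := K) (2 * X)
      push_cast at h4
      refine le_trans ?_ h4
      exact_mod_cast h3
    refine (mul_le_mul_of_nonneg_right h2 (by positivity)).trans ?_
    have e2 : (X : ℝ) * (X : ℝ) ^ (-(2 * z.re)) ≤ (X : ℝ) ^ (1 / 2 - z.re) := by
      have e0 : (X : ℝ) * (X : ℝ) ^ (-(2 * z.re)) = (X : ℝ) ^ (1 + -(2 * z.re)) := by
        rw [Real.rpow_add hX0, Real.rpow_one]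
      rw [e0]
      exact Real.rpow_le_rpow_of_exponent_le hXr (by linarith)
    calc (Module.finrank ℚ K : ℝ) * (2 * X) * (B * (X : ℝ) ^ (-(2 * z.re))) = 2 * (Module.finrank ℚ K * B) * (X * (X : ℝ) ^ (-(2 * z.re))) := by ring
      _ ≤ _ := mul_le_mul_of_nonneg_left e2 (by positivity)
  have e3 : ∑ v ∈ SX K X', G v - ∑ v ∈ SX K X, G v = ((∑ v ∈ SX K X', G v - ∑ v ∈ SX K X, G v) - (D X' - D X)) + (D X' - D X) := by ring
  rw [e3]
  refine (norm_add_le _ _).trans ?_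
  have e4 : 2 * (2 * (X : ℝ) ^ (1 - z.re)) * (2 * Λ) = 8 * Λ * (X : ℝ) ^ (1 - z.re) := by ring
  linarith


/-- the theorem for one function -/
theorem half (K : Type) [Field K] [NumberField K] (ι : Type) [Fintype ι] [DecidableEq ι] (B ε : ℝ) (a : ℕ) (hB : 0 < B) (hε : 0 < ε) (ha : 1 ≤ a) :
    ∃ c : ℝ, 0 < c ∧ ∃ C : ℝ, 0 ≤ C ∧ ∀ (b : Fin (Module.finrank ℚ K) → 𝓞 K), (∀ x : 𝓞 K, ∃ a : Fin (Module.finrank ℚ K) → ℤ, x = ∑ j, (a j : 𝓞 K) * b j) →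
    ∀ val : HeightOneSpectrum (𝓞 K) → (ι → 𝓞 K) → ℝ, LocZ K ι B val →
    ∀ G : (HeightOneSpectrum (𝓞 K) → ℂ) → ℂ → HeightOneSpectrum (𝓞 K) → (ι → 𝓞 K) → ℂ,
    (∀ ψ : HeightOneSpectrum (𝓞 K) → ℂ, (∀ v, ‖ψ v‖ ≤ 1) → ∀ z : ℂ, 1 / 2 ≤ z.re → ∀ v t,
      ‖G ψ z v t - ψ v * (Ideal.absNorm v.asIdeal : ℂ) ^ (1 - z) * val v t‖ ≤ B * (Ideal.absNorm v.asIdeal : ℝ) ^ (-(2 * z.re))) →
    ∀ Ψ : ℕ → Finset (HeightOneSpectrum (𝓞 K) → ℂ), (∀ n, (Ψ n).card ≤ n ^ a) → (∀ m n, m ≤ n → Ψ m ⊆ Ψ n) → (∀ n, ∀ ψ ∈ Ψ n, ∀ v, ‖ψ v‖ ≤ 1) →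
    ∀ (N : ι × Fin (Module.finrank ℚ K) → ℤ) (L : ι × Fin (Module.finrank ℚ K) → ℕ) (T : ℝ), 0 < T → (∀ k, T ≤ L k) → ∀ X₀ : ℕ, 1 ≤ X₀ →
    ∀ E : Finset (ι × Fin (Module.finrank ℚ K) → ℤ), E ⊆ kbox N L →
      (∀ n ∈ E, ∃ X X' : ℕ, ∃ ψ ∈ Ψ X, ∃ z : ℂ, X₀ ≤ X ∧ X ≤ X' ∧ (X' : ℝ) ≤ T ^ c ∧ 1 / 2 + ε ≤ z.re ∧ |z.im| ≤ (X : ℝ) ^ a ∧
        (X : ℝ) ^ (1 / 2 - z.re + ε) < ‖∑ v ∈ SX K X', G ψ z v (comb b n) - ∑ v ∈ SX K X, G ψ z v (comb b n)‖) →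
      (E.card : ℝ) ≤ C * (X₀ : ℝ) ^ (-(a : ℝ)) * ∏ i, (L i : ℝ) := by
  classical
  obtain ⟨A, hA⟩ : ∃ A : ℝ, A = 3 * a + 1 := ⟨_, rfl⟩
  have har : (1 : ℝ) ≤ a := by exact_mod_cast ha
  have hA0 : 0 < A := by rw [hA]; positivity
  obtain ⟨ε', hε'⟩ : ∃ ε' : ℝ, ε' = min ε (1 / 4) := ⟨_, rfl⟩
  have hε'0 : 0 < ε' := by rw [hε']; exact lt_min hε (by norm_num)
  have hε'1 : ε' ≤ 1 / 4 := by rw [hε']; exact min_le_right _ _
  have hε'2 : ε' ≤ ε := by rw [hε']; exact min_le_left _ _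
  obtain ⟨η, hη⟩ : ∃ η : ℝ, η = ε' / 2 := ⟨_, rfl⟩
  have hη0 : 0 < η := by rw [hη]; positivity
  have hη1 : η ≤ 1 / 8 := by rw [hη]; linarith
  obtain ⟨k, hk⟩ : ∃ k : ℕ, k = ⌈(A + 4) / (2 * η)⌉₊ + 1 := ⟨_, rfl⟩
  have hk1 : 1 ≤ k := by omega
  have hkη : A + 4 ≤ 2 * k * η := by
    have h1 : (A + 4) / (2 * η) ≤ k := by
      rw [hk]
      push_cast
      have := Nat.le_ceil ((A + 4) / (2 * η))
      linarith
    rw [div_le_iff₀ (by positivity)] at h1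
    linarith
  obtain ⟨C₁, hC₁, C₂, hC₂, hblock⟩ := bad_family K ι B hB A η hA0 hη0 k hk1 hkη
  obtain ⟨α, hα⟩ : ∃ α : ℝ, α = 1 / 2 - η := ⟨_, rfl⟩
  have hα0 : 0 < α := by rw [hα]; linarith
  have hα1 : α ≤ 1 := by rw [hα]; linarith
  obtain ⟨ρ, hρ⟩ : ∃ ρ : ℝ, ρ = (2 : ℝ) ^ (-α) := ⟨_, rfl⟩
  have hρ0 : 0 < ρ := by rw [hρ]; positivity
  obtain ⟨σ, hσ⟩ : ∃ σ : ℝ, σ = (2 : ℝ) ^ (-((a : ℝ) + 1)) := ⟨_, rfl⟩
  have hσ0 : 0 < σ := by rw [hσ]; positivity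
  have hσ1 : σ ≤ 1 / 2 := by
    rw [hσ]
    calc (2 : ℝ) ^ (-((a : ℝ) + 1)) ≤ (2 : ℝ) ^ (-1 : ℝ) := Real.rpow_le_rpow_of_exponent_le (by norm_num) (by linarith)
      _ = 1 / 2 := by
        rw [Real.rpow_neg_one]
        norm_num
  obtain ⟨D, hD⟩ : ∃ D : ℝ, D = Module.finrank ℚ K * B := ⟨_, rfl⟩
  have hD0 : 0 ≤ D := by rw [hD]; positivity
  obtain ⟨C₃, hC₃⟩ : ∃ C₃ : ℝ, C₃ = 16 * (2 * (1 + C₁) + 8 * D) + 2 * D := ⟨_, rfl⟩
  have hC₃0 : 0 ≤ C₃ := by rw [hC₃]; positivity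
  have hη2 : (2 : ℝ) ^ (-η) < 1 := Real.rpow_lt_one_of_one_lt_of_neg (by norm_num) (by linarith)
  obtain ⟨C₆, hC₆⟩ : ∃ C₆ : ℝ, C₆ = C₃ * (1 + 1 / (1 - (2 : ℝ) ^ (-η))) + 1 := ⟨_, rfl⟩
  have hC₆0 : 0 < C₆ := by
    rw [hC₆]
    have : 0 < 1 - (2 : ℝ) ^ (-η) := by linarith
    positivity
  obtain ⟨δ, hδ⟩ : ∃ δ : ℕ, δ = Fintype.card (ι × Fin (Module.finrank ℚ K)) := ⟨_, rfl⟩
  obtain ⟨W, hW⟩ : ∃ W : ℝ, W = 2 * δ * (32 : ℝ) ^ k := ⟨_, rfl⟩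
  have hW0 : 0 ≤ W := by rw [hW]; positivity
  obtain ⟨Xm, hXm⟩ : ∃ Xm : ℝ, Xm = max (C₆ ^ (1 / η)) (max (W ^ 2) 1) := ⟨_, rfl⟩
  have hXm1 : 1 ≤ Xm := by rw [hXm]; exact (le_max_right _ _).trans (le_max_right _ _)
  have hk0 : (0 : ℝ) < k := by exact_mod_cast hk1
  obtain ⟨c, hc⟩ : ∃ c : ℝ, c = 1 / (10 * k) := ⟨_, rfl⟩
  have hc0 : 0 < c := by rw [hc]; positivity
  obtain ⟨C₄, hC₄⟩ : ∃ C₄ : ℝ, C₄ = 6 * (2 : ℝ) ^ (2 * a) * C₂ := ⟨_, rfl⟩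
  have hC₄0 : 0 ≤ C₄ := by rw [hC₄]; positivity
  refine ⟨c, hc0, C₄ * (2 * 2 ^ ((a : ℝ) + 1)) + Xm ^ (a : ℝ), by positivity, ?_⟩
  intro b hb val hloc G hG Ψ hΨc hΨm hΨ1 N L T hT0 hL X₀ hX₀ E hE hEx
  have hP0 : 0 < ∏ i, (L i : ℝ) := prod_pos fun i _ => hT0.trans_le (hL i)
  have hX₀0 : (0 : ℝ) < X₀ := by exact_mod_cast hX₀
  have hX₀1 : (1 : ℝ) ≤ X₀ := by exact_mod_cast hX₀
  have hX₀A : 0 < (X₀ : ℝ) ^ (-(a : ℝ)) := by positivity
  rcases lt_or_ge (X₀ : ℝ) Xm with hsmall | hlarge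
  · have h1 : (E.card : ℝ) ≤ ∏ i, (L i : ℝ) := by
      have h2 := card_le_card hE
      have h3 := Q282.PX.kbox_card N L
      rw [h3] at h2
      exact_mod_cast h2
    have h2 : 1 ≤ Xm ^ (a : ℝ) * (X₀ : ℝ) ^ (-(a : ℝ)) := by
      rw [Real.rpow_neg hX₀0.le, ← div_eq_mul_inv, one_le_div (by positivity)]
      exact Real.rpow_le_rpow hX₀0.le hsmall.le (Nat.cast_nonneg a)
    have h3 : (0 : ℝ) ≤ C₄ * (2 * 2 ^ ((a : ℝ) + 1)) * (X₀ : ℝ) ^ (-(a : ℝ)) := by positivity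
    calc (E.card : ℝ) ≤ 1 * ∏ i, (L i : ℝ) := by rw [one_mul]; exact h1
      _ ≤ _ := by
        refine mul_le_mul_of_nonneg_right ?_ hP0.le
        rw [add_mul]
        linarith
  · rcases E.eq_empty_or_nonempty with hE0 | ⟨n₀, hn₀⟩
    · rw [hE0, card_empty, Nat.cast_zero]
      positivity
    obtain ⟨X, X', -, -, -, g1, g2, g3, -⟩ := hEx n₀ hn₀
    have hXT : (X₀ : ℝ) ≤ T ^ c := by
      have : (X₀ : ℝ) ≤ X' := by exact_mod_cast g1.trans g2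
      exact this.trans g3
    have hT1 : 1 ≤ T := by
      by_contra hlt
      push Not at hlt
      have h1 := Real.rpow_lt_one hT0.le hlt hc0
      linarith
    have hc1 : c ≤ 1 := by
      rw [hc, div_le_one (by positivity)]
      have : (1 : ℝ) ≤ k := by exact_mod_cast hk1
      linarith
    have hTX : (X₀ : ℝ) ≤ T := by
      refine hXT.trans ?_
      calc T ^ c ≤ T ^ (1 : ℝ) := Real.rpow_le_rpow_of_exponent_le hT1 hc1
        _ = T := Real.rpow_one T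
    obtain ⟨Y, hY⟩ : ∃ Y : ℕ, Y = ⌊T ^ c⌋₊ := ⟨_, rfl⟩
    have hYT : (Y : ℝ) ≤ T ^ c := by rw [hY]; exact Nat.floor_le (by positivity)
    have hX₀Y : X₀ ≤ Y := by rw [hY]; exact Nat.le_floor hXT
    obtain ⟨J, hJ⟩ : ∃ J : ℕ, J = Nat.log 2 Y := ⟨_, rfl⟩
    have hYne : Y ≠ 0 := by omega
    have hJY : 2 ^ J ≤ Y := by rw [hJ]; exact Nat.pow_log_le_self 2 hYne
    have hYJ : Y < 2 ^ (J + 1) := by rw [hJ]; exact Nat.lt_pow_succ_log_self (by norm_num) Y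
    obtain ⟨j₀, hj₀⟩ : ∃ j₀ : ℕ, j₀ = Nat.log 2 X₀ := ⟨_, rfl⟩
    have hj₀X : 2 ^ j₀ ≤ X₀ := by rw [hj₀]; exact Nat.pow_log_le_self 2 (by omega)
    have hTj : ∀ j, j ≤ J → 2 * (Fintype.card (ι × Fin (Module.finrank ℚ K)) : ℝ) * ((2 : ℝ) ^ (j + 1)) ^ (5 * k) ≤ T := by
      intro j hj
      rw [← hδ]
      have h1 : (2 : ℝ) ^ (j + 1) ≤ 2 * T ^ c := by
        rw [pow_succ']
        refine mul_le_mul_of_nonneg_left ?_ (by norm_num)
        refine le_trans ?_ hYT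
        have : 2 ^ j ≤ Y := (Nat.pow_le_pow_right (by norm_num) hj).trans hJY
        exact_mod_cast this
      have h2 : ((2 : ℝ) ^ (j + 1)) ^ (5 * k) ≤ (32 : ℝ) ^ k * Real.sqrt T := by
        refine (pow_le_pow_left₀ (by positivity) h1 _).trans (le_of_eq ?_)
        rw [mul_pow, pow_mul, ← Real.rpow_natCast (T ^ c), ← Real.rpow_mul hT0.le, Real.sqrt_eq_rpow]
        congr 1
        · norm_num
        · congr 1
          rw [hc]
          push_cast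
          field_simp
          norm_num
      have h3 : W ≤ Real.sqrt T := by
        refine Real.le_sqrt_of_sq_le ?_
        have h4 : W ^ 2 ≤ Xm := by rw [hXm]; exact (le_max_left _ _).trans (le_max_right _ _)
        linarith
      calc 2 * (δ : ℝ) * ((2 : ℝ) ^ (j + 1)) ^ (5 * k) ≤ 2 * (δ : ℝ) * ((32 : ℝ) ^ k * Real.sqrt T) :=
            mul_le_mul_of_nonneg_left h2 (by positivity)
        _ = W * Real.sqrt T := by rw [hW]; ring
        _ ≤ Real.sqrt T * Real.sqrt T := mul_le_mul_of_nonneg_right h3 (Real.sqrt_nonneg _)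
        _ = T := Real.mul_self_sqrt hT0.le
    -- the weights of the dyadic intervals
    obtain ⟨M, hM⟩ : ∃ M : ℕ → ℕ, M = fun j => 2 ^ j * (2 ^ (j + 1)) ^ a := ⟨_, rfl⟩
    obtain ⟨Ω, hΩ⟩ : ∃ Ω : ℕ → Finset (HeightOneSpectrum (𝓞 K) → ℝ), Ω = fun j => wts (Ψ (2 ^ (j + 1))) j (M j) := ⟨_, rfl⟩
    obtain ⟨V, hV⟩ : ∃ V : ℕ → Finset (ι × Fin (Module.finrank ℚ K) → ℤ), V = fun j => (kbox N L).filter fun n =>
        ∃ w ∈ Ω j, ∃ X : ℕ, 2 ^ j ≤ X ∧ X ≤ 2 ^ (j + 1) ∧ ((2 : ℝ) ^ (-(1 / 2 - η))) ^ j + C₁ / Real.sqrt ((2 : ℝ) ^ j) <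
          |∑ v ∈ SX K X, w v * val v (comb b n) - ∑ v ∈ SX K (2 ^ j), w v * val v (comb b n)| := ⟨_, rfl⟩
    have hVj : ∀ j ∈ Icc j₀ J, ((V j).card : ℝ) ≤ C₄ * σ ^ j * ∏ i, (L i : ℝ) := by
      intro j hj
      rw [mem_Icc] at hj
      have hΩ1 : ∀ w ∈ Ω j, ∀ v, |w v| ≤ 1 := by
        intro w hw v
        rw [hΩ] at hw
        exact wts_le (hΨ1 (2 ^ (j + 1))) j (M j) w hw v
      have h1 := hblock b hb val hloc (Ω j) hΩ1 j T hT0 (hTj j hj.2) N L hL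
      rw [hV]
      refine h1.trans ?_
      have h2 : ((Ω j).card : ℝ) ≤ 6 * (2 : ℝ) ^ (2 * a) * (2 : ℝ) ^ ((2 * a + 1) * j) := by
        have h3 := wts_card (Ψ (2 ^ (j + 1))) j (M j) (by
          rw [hM]
          exact Nat.one_le_iff_ne_zero.2 (by positivity))
        rw [hΩ]
        refine h3.trans ?_
        have h4 : ((Ψ (2 ^ (j + 1))).card : ℝ) ≤ ((2 : ℝ) ^ (j + 1)) ^ a := by
          have := hΨc (2 ^ (j + 1))
          exact_mod_cast this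
        have h5 : (M j : ℝ) = 2 ^ j * ((2 : ℝ) ^ (j + 1)) ^ a := by
          rw [hM]
          push_cast
          ring
        rw [h5]
        calc 6 * ((Ψ (2 ^ (j + 1))).card : ℝ) * (2 ^ j * ((2 : ℝ) ^ (j + 1)) ^ a) ≤ 6 * ((2 : ℝ) ^ (j + 1)) ^ a * (2 ^ j * ((2 : ℝ) ^ (j + 1)) ^ a) :=
              mul_le_mul_of_nonneg_right (mul_le_mul_of_nonneg_left h4 (by norm_num)) (by positivity)
          _ = 6 * (2 : ℝ) ^ (2 * a) * (2 : ℝ) ^ ((2 * a + 1) * j) := by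
              rw [← pow_mul]
              ring
      have h3 : (2 : ℝ) ^ ((2 * a + 1) * j) * ((2 : ℝ) ^ (-(A + 1))) ^ j ≤ σ ^ j := by
        rw [pow_mul, ← mul_pow]
        refine pow_le_pow_left₀ (by positivity) ?_ j
        rw [hσ, ← Real.rpow_natCast, ← Real.rpow_add (by norm_num)]
        refine Real.rpow_le_rpow_of_exponent_le (by norm_num) ?_
        rw [hA]
        push_cast
        linarith
      have h4 : 0 ≤ C₂ * ((2 : ℝ) ^ (-(A + 1))) ^ j * ∏ i, (L i : ℝ) := by positivity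
      refine (mul_le_mul_of_nonneg_right h2 h4).trans ?_
      rw [hC₄]
      have e : 6 * (2 : ℝ) ^ (2 * a) * (2 : ℝ) ^ ((2 * a + 1) * j) * (C₂ * ((2 : ℝ) ^ (-(A + 1))) ^ j * ∏ i, (L i : ℝ)) =
          (6 * (2 : ℝ) ^ (2 * a) * C₂) * ((2 : ℝ) ^ ((2 * a + 1) * j) * ((2 : ℝ) ^ (-(A + 1))) ^ j) * ∏ i, (L i : ℝ) := by ring
      rw [e]
      exact mul_le_mul_of_nonneg_right (mul_le_mul_of_nonneg_left h3 (by positivity)) hP0.le
    have hsub : E ⊆ (Icc j₀ J).biUnion V := by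
      intro n hn
      by_contra hno
      rw [mem_biUnion] at hno
      push Not at hno
      obtain ⟨X, X', ψ, hψX, z, f1, f2, f3, f4, f5, f6⟩ := hEx n hn
      have hX1 : 1 ≤ X := hX₀.trans f1
      have hXr : (1 : ℝ) ≤ X := by exact_mod_cast hX1
      have hX'Y : X' ≤ Y := by rw [hY]; exact Nat.le_floor f3
      have hz : 1 / 2 ≤ z.re := by linarith
      have hψn : ∀ v, ‖ψ v‖ ≤ 1 := hΨ1 X ψ hψX
      obtain ⟨β, hβ⟩ : ∃ β : ℝ, β = z.re - 1 / 2 - η := ⟨_, rfl⟩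
      have hβη : η ≤ β := by rw [hβ, hη]; linarith
      have hβ0 : 0 < β := by linarith
      have hlogX : Nat.log 2 X ≤ J := by
        have h1 : 2 ^ Nat.log 2 X ≤ X := Nat.pow_log_le_self 2 (by omega)
        by_contra hlt
        push Not at hlt
        have : 2 ^ (J + 1) ≤ 2 ^ Nat.log 2 X := Nat.pow_le_pow_right (by norm_num) hlt
        omega
      have hXlt : X < 2 ^ (Nat.log 2 X + 1) := Nat.lt_pow_succ_log_self (by norm_num) X
      have hXge : 2 ^ Nat.log 2 X ≤ X := Nat.pow_log_le_self 2 (by omega)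
      have hj₀l : j₀ ≤ Nat.log 2 X := by
        rw [hj₀]
        exact Nat.log_mono_right f1
      have hch := chain (fun X => ∑ v ∈ SX K X, G ψ z v (comb b n)) β C₃ hβ0 hC₃0 (Nat.log 2 X) J (fun j hj1 hj2 Z Z' hZ1 hZ2 hZ3 => by
        have hnV := hno j (mem_Icc.2 ⟨hj₀l.trans hj1, hj2⟩)
        rw [hV] at hnV
        have h2 : ¬ ∃ w ∈ Ω j, ∃ X : ℕ, 2 ^ j ≤ X ∧ X ≤ 2 ^ (j + 1) ∧ ((2 : ℝ) ^ (-(1 / 2 - η))) ^ j + C₁ / Real.sqrt ((2 : ℝ) ^ j) <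
          |∑ v ∈ SX K X, w v * val v (comb b n) - ∑ v ∈ SX K (2 ^ j), w v * val v (comb b n)| := fun h3 => hnV (mem_filter.2 ⟨hE hn, h3⟩)
        push Not at h2
        have hinv : 1 / Real.sqrt ((2 : ℝ) ^ j) ≤ ρ ^ j := by
          have h4 : 1 / Real.sqrt ((2 : ℝ) ^ j) = ((2 : ℝ) ^ (-(1 / 2) : ℝ)) ^ j := by
            rw [rpow_two, Real.rpow_neg (by positivity), Real.sqrt_eq_rpow, one_div]
          rw [h4, hρ]
          refine pow_le_pow_left₀ (by positivity) ?_ j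
          refine Real.rpow_le_rpow_of_exponent_le (by norm_num) ?_
          rw [hα]
          linarith
        have hψj : ψ ∈ Ψ (2 ^ (j + 1)) := hΨm X _ (hXlt.le.trans (Nat.pow_le_pow_right (by norm_num) (by omega))) hψX
        have ht : |z.im| * 2 ^ j ≤ M j := by
          have h3 : |z.im| ≤ ((2 : ℝ) ^ (j + 1)) ^ a := by
            refine f5.trans (pow_le_pow_left₀ (Nat.cast_nonneg _) ?_ a)
            have : X ≤ 2 ^ (j + 1) := hXlt.le.trans (Nat.pow_le_pow_right (by norm_num) (by omega))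
            exact_mod_cast this
          rw [hM]
          push_cast
          rw [mul_comm ((2 : ℝ) ^ j)]
          exact mul_le_mul_of_nonneg_right h3 (by positivity)
        have hgood := fun Z0 (hZa : 2 ^ j ≤ Z0) (hZb : Z0 ≤ 2 ^ (j + 1)) => block_good B hB (fun v => val v (comb b n)) (fun v => z_le hloc v _) (hΨ1 (2 ^ (j + 1))) j (M j)
          (((2 : ℝ) ^ (-(1 / 2 - η))) ^ j + C₁ / Real.sqrt ((2 : ℝ) ^ j)) (fun w hw X hXa hXb => h2 w (by rw [hΩ]; exact hw) X hXa hXb) ψ hψj z.im ht Z0 hZa hZb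
        have hΛ : ∀ Z0, 2 ^ j ≤ Z0 → Z0 ≤ 2 ^ (j + 1) → ‖cs ψ z.im (fun v => val v (comb b n)) Z0 - cs ψ z.im (fun v => val v (comb b n)) (2 ^ j)‖ ≤
            (2 * (1 + C₁) + 8 * D) * ρ ^ j := by
          intro Z0 hZa hZb
          refine (hgood Z0 hZa hZb).trans ?_
          rw [← hD, div_eq_mul_one_div C₁, ← hα, ← hρ]
          have h3 : C₁ * (1 / Real.sqrt ((2 : ℝ) ^ j)) ≤ C₁ * ρ ^ j := mul_le_mul_of_nonneg_left hinv hC₁
          have h4 : 8 * D * (1 / Real.sqrt ((2 : ℝ) ^ j)) ≤ 8 * D * ρ ^ j := mul_le_mul_of_nonneg_left hinv (by positivity)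
          linarith
        have h5 := block_half B hB (fun v => val v (comb b n)) ψ (fun v => G ψ z v (comb b n)) z hz (fun v => hG ψ hψn z hz v _) j
          ((2 * (1 + C₁) + 8 * D) * ρ ^ j) (by positivity) hΛ Z Z' hZ1 hZ2 hZ3
        refine h5.trans ?_
        have hZ0 : 1 ≤ Z := Nat.one_le_two_pow.trans hZ1
        have hZr : (1 : ℝ) ≤ Z := by exact_mod_cast hZ0
        have hZpos : (0 : ℝ) < Z := by linarith
        have h6 : ρ ^ j ≤ 2 * (Z : ℝ) ^ (-α) := by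
          rw [hρ, rpow_two]
          have h7 : (Z : ℝ) ≤ 2 * 2 ^ j := by
            have : Z ≤ 2 ^ (j + 1) := hZ2.trans hZ3
            rw [pow_succ'] at this
            exact_mod_cast this
          have h8 : (2 * (2 : ℝ) ^ j) ^ (-α) ≤ (Z : ℝ) ^ (-α) := Real.rpow_le_rpow_of_nonpos hZpos h7 (by linarith)
          rw [Real.mul_rpow (by norm_num) (by positivity)] at h8
          have h9 : (1 : ℝ) / 2 ≤ (2 : ℝ) ^ (-α) := by
            calc (1 : ℝ) / 2 = (2 : ℝ) ^ (-1 : ℝ) := by rw [Real.rpow_neg_one]; norm_num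
              _ ≤ _ := Real.rpow_le_rpow_of_exponent_le (by norm_num) (by linarith)
          have h10 : 0 < ((2 : ℝ) ^ j) ^ (-α) := by positivity
          have h11 := mul_le_mul_of_nonneg_right h9 h10.le
          linarith
        have h7 : 8 * ((2 * (1 + C₁) + 8 * D) * ρ ^ j) * (Z : ℝ) ^ (1 - z.re) ≤ 16 * (2 * (1 + C₁) + 8 * D) * (Z : ℝ) ^ (-β) := by
          have h8 : (Z : ℝ) ^ (-α) * (Z : ℝ) ^ (1 - z.re) = (Z : ℝ) ^ (-β) := by
            rw [← Real.rpow_add hZpos]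
            congr 1
            rw [hβ, hα]
            ring
          rw [← h8]
          have h9 : 0 < (Z : ℝ) ^ (1 - z.re) := by positivity
          have h10 : 0 ≤ 8 * (2 * (1 + C₁) + 8 * D) * (Z : ℝ) ^ (1 - z.re) := by positivity
          have h11 := mul_le_mul_of_nonneg_left h6 h10
          calc 8 * ((2 * (1 + C₁) + 8 * D) * ρ ^ j) * (Z : ℝ) ^ (1 - z.re) = 8 * (2 * (1 + C₁) + 8 * D) * (Z : ℝ) ^ (1 - z.re) * ρ ^ j := by ring
            _ ≤ 8 * (2 * (1 + C₁) + 8 * D) * (Z : ℝ) ^ (1 - z.re) * (2 * (Z : ℝ) ^ (-α)) := h11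
            _ = _ := by ring
        have h8 : 2 * (Module.finrank ℚ K * B) * (Z : ℝ) ^ (1 / 2 - z.re) ≤ 2 * D * (Z : ℝ) ^ (-β) := by
          rw [← hD]
          refine mul_le_mul_of_nonneg_left ?_ (by positivity)
          exact Real.rpow_le_rpow_of_exponent_le hZr (by rw [hβ]; linarith)
        rw [hC₃, add_mul]
        linarith) X X' hX1 hXge f2 (lt_of_le_of_lt hX'Y hYJ)
      have h1 : C₃ * (1 + 1 / (1 - (2 : ℝ) ^ (-β))) ≤ C₆ := by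
        have h2 : (2 : ℝ) ^ (-β) ≤ (2 : ℝ) ^ (-η) := Real.rpow_le_rpow_of_exponent_le (by norm_num) (by linarith)
        have h3 : 1 / (1 - (2 : ℝ) ^ (-β)) ≤ 1 / (1 - (2 : ℝ) ^ (-η)) := one_div_le_one_div_of_le (by linarith) (by linarith)
        rw [hC₆]
        have h4 := mul_le_mul_of_nonneg_left h3 hC₃0
        linarith
      have h7 : C₆ ≤ (X : ℝ) ^ η := by
        have h8 : C₆ ^ (1 / η) ≤ X := by
          have h9 : C₆ ^ (1 / η) ≤ Xm := by rw [hXm]; exact le_max_left _ _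
          have h10 : (X₀ : ℝ) ≤ X := by exact_mod_cast f1
          linarith
        have h9 := Real.rpow_le_rpow (by positivity) h8 hη0.le
        rwa [← Real.rpow_mul hC₆0.le, one_div_mul_cancel hη0.ne', Real.rpow_one] at h9
      have h8 : C₃ * (1 + 1 / (1 - (2 : ℝ) ^ (-β))) * (X : ℝ) ^ (-β) ≤ (X : ℝ) ^ (1 / 2 - z.re + ε) := by
        refine (mul_le_mul_of_nonneg_right (h1.trans h7) (by positivity)).trans ?_
        rw [← Real.rpow_add (by linarith)]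
        refine Real.rpow_le_rpow_of_exponent_le hXr ?_
        rw [hβ]
        linarith
      exact absurd (hch.trans h8) (not_le.2 f6)
    have h1 : (E.card : ℝ) ≤ ∑ j ∈ Icc j₀ J, ((V j).card : ℝ) := by
      exact_mod_cast (card_le_card hsub).trans card_biUnion_le
    have h2 : ∑ j ∈ Icc j₀ J, σ ^ j ≤ 2 * σ ^ j₀ := by
      have h3 : ∑ j ∈ Icc j₀ J, σ ^ j = ∑ j ∈ Ico j₀ (J + 1), σ ^ j := by
        congr 1
      rw [h3, sum_Ico_eq_sum_range]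
      have h4 : ∀ s ∈ range (J + 1 - j₀), σ ^ (j₀ + s) = σ ^ j₀ * σ ^ s := fun s _ => pow_add _ _ _
      rw [sum_congr rfl h4, ← mul_sum, mul_comm]
      refine mul_le_mul_of_nonneg_right ?_ (by positivity)
      have h5 : ∑ s ∈ range (J + 1 - j₀), σ ^ s ≤ 1 / (1 - σ) := by
        rw [geom_sum_eq (by linarith : σ ≠ 1), le_div_iff₀ (by linarith)]
        have h6 : (σ ^ (J + 1 - j₀) - 1) / (σ - 1) * (1 - σ) = 1 - σ ^ (J + 1 - j₀) := by
          have : σ - 1 ≠ 0 := by linarith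
          field_simp
          ring
        rw [h6]
        have : 0 ≤ σ ^ (J + 1 - j₀) := by positivity
        linarith
      refine h5.trans ?_
      rw [div_le_iff₀ (by linarith)]
      linarith
    have h3 : σ ^ j₀ ≤ (2 : ℝ) ^ ((a : ℝ) + 1) * (X₀ : ℝ) ^ (-(a : ℝ)) := by
      rw [hσ, hj₀]
      refine (dyadic ((a : ℝ) + 1) (by linarith) X₀ hX₀).trans ?_
      refine mul_le_mul_of_nonneg_left ?_ (by positivity)
      exact Real.rpow_le_rpow_of_exponent_le hX₀1 (by linarith)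
    have h4 : ∑ j ∈ Icc j₀ J, ((V j).card : ℝ) ≤ C₄ * (2 * ((2 : ℝ) ^ ((a : ℝ) + 1) * (X₀ : ℝ) ^ (-(a : ℝ)))) * ∏ i, (L i : ℝ) := by
      refine (sum_le_sum hVj).trans ?_
      rw [← sum_mul, ← mul_sum]
      refine mul_le_mul_of_nonneg_right (mul_le_mul_of_nonneg_left ?_ hC₄0) hP0.le
      linarith
    refine (h1.trans h4).trans ?_
    refine mul_le_mul_of_nonneg_right ?_ hP0.le
    have h5 : 0 ≤ Xm ^ (a : ℝ) * (X₀ : ℝ) ^ (-(a : ℝ)) := by positivity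
    rw [add_mul]
    have h6 : C₄ * (2 * ((2 : ℝ) ^ ((a : ℝ) + 1) * (X₀ : ℝ) ^ (-(a : ℝ)))) = C₄ * (2 * 2 ^ ((a : ℝ) + 1)) * (X₀ : ℝ) ^ (-(a : ℝ)) := by ring
    linarith

end Q282.TC
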