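import Pool.Agent.Q282.TC.Loc
import Pool.Agent.Q282.TP.Defs
import Mathlib.Analysis.SpecialFunctions.Complex.LogBounds

/-!
# The Euler products of the tensor products of exterior powers of the cohomology of hyperelliptic curves
-/

set_option autoImplicit false
set_option linter.unusedSectionVars false

namespace Q282.TC

open Finset NumberField IsDedekindDomain Polynomial
open Q282.JK Q282.PX Q282.CL Q282.GK Q282.NF Q282.TP
open Pool.Agent.H341R2.Sharp (T)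
open Pool.Agent.H921R2.TatePole (below deg nm nm_eq)

section

variable {K : Type} [Field K] [NumberField K] {s : ℕ} {g : Fin s → ℕ}

/-- The trace of the `k`-th power of the Frobenius at `v` on the `n`-th exterior power of `H¹` of the curve `y ^ 2 = f(x)`: the
coefficient of `T ^ n` of `det (1 + Frob_v ^ k T) = exp (- ∑_r trace (Frob_v ^ (k r)) (-T) ^ r / r)`, where
`trace (Frob_v ^ m) = q ^ m - #{affine points over the field with q ^ m elements}`, `q = N v`. -/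
noncomputable def extTrace (f : (𝓞 K)[X]) (v : HeightOneSpectrum (𝓞 K)) (n k : ℕ) : ℝ :=
  (-1) ^ n * expCoeff (fun r => (Q282.JK.points f v (k * r) : ℝ) - (Ideal.absNorm v.asIdeal : ℝ) ^ (k * r)) n

/-- The trace of the `k`-th power of the Frobenius at `v` on the tensor product of the exterior powers `Λ ^ (c (i, j)) H¹(C_i)`,
where `C_i` is the curve `y ^ 2 = f_i(x)`, over all `i` and `j`. -/
noncomputable def traceM (f : Fin s → (𝓞 K)[X]) (c : Jx g → ℕ) (v : HeightOneSpectrum (𝓞 K)) (k : ℕ) : ℝ :=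
  ∏ x : Jx g, extTrace (f x.1) v (c x) k

/-- The Euler factor at `v` of the `L`-function of the tensor product, twisted by `ψ`, at `z`:
`exp (∑_{k ≥ 1} ψ(v) ^ k trace (Frob_v ^ k) / (k q ^ (k z)))`, `q = N v`. -/
noncomputable def factorM (f : Fin s → (𝓞 K)[X]) (c : Jx g → ℕ) (ψ : HeightOneSpectrum (𝓞 K) → ℂ) (z : ℂ) (v : HeightOneSpectrum (𝓞 K)) : ℂ :=
  Complex.exp (∑' k : ℕ, ψ v ^ (k + 1) * traceM f c v (k + 1) / ((k + 1) * (Ideal.absNorm v.asIdeal : ℂ) ^ (((k + 1 : ℕ) : ℂ) * z)))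

/-- The product of the Euler factors `factorM` over the primes `v` with `GoodP f v` and `N v ≤ X`. -/
noncomputable def productM (f : Fin s → (𝓞 K)[X]) (c : Jx g → ℕ) (ψ : HeightOneSpectrum (𝓞 K) → ℂ) (z : ℂ) (X : ℕ) : ℂ :=
  ∏ᶠ v ∈ {v : HeightOneSpectrum (𝓞 K) | GoodP f v ∧ Ideal.absNorm v.asIdeal ≤ X}, factorM f c ψ z v

/-- The product of the Euler factors `(1 - ψ(v) q ^ (-z)) ^ (-1)` over the primes with `q = N v ≤ X`. -/
noncomputable def productZ (ψ : HeightOneSpectrum (𝓞 K) → ℂ) (z : ℂ) (X : ℕ) : ℂ :=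
  ∏ᶠ v ∈ {v : HeightOneSpectrum (𝓞 K) | Ideal.absNorm v.asIdeal ≤ X}, (1 - ψ v * (Ideal.absNorm v.asIdeal : ℂ) ^ (-z))⁻¹

/-- the weight -/
def wt (c : Jx g → ℕ) : ℕ := ∑ x, c x

lemma ext_nt (f : (𝓞 K)[X]) (v : HeightOneSpectrum (𝓞 K)) [Fintype (Res v)] [DecidableEq (Res v)] (h2 : (2 : Res v) ≠ 0) (n k : ℕ) (hk : 1 ≤ k) :
    extTrace f v n k = nt (f.map (red v)) n k * (Real.sqrt (Ideal.absNorm v.asIdeal)) ^ (k * n) := by
  have hq0 : (0 : ℝ) < Ideal.absNorm v.asIdeal := by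
    have := two_le v
    linarith
  have hs0 : 0 < Real.sqrt (Ideal.absNorm v.asIdeal) := Real.sqrt_pos.2 hq0
  unfold extTrace nt
  rw [res_card v, div_mul_cancel₀ _ (by positivity)]
  congr 1
  refine ec_congr _ _ (fun r hr => ?_) n
  rw [← pts_eq (res_ring v h2) (f.map (red v)) (k * r) (Nat.mul_pos hk hr)]
  unfold Q282.JK.points
  rw [res_card v]

lemma trace_zM (f : Fin s → (𝓞 K)[X]) (c : Jx g → ℕ) (v : HeightOneSpectrum (𝓞 K)) [Fintype (Res v)] [DecidableEq (Res v)]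
    (h2 : (2 : Res v) ≠ 0) (k : ℕ) (hk : 1 ≤ k) :
    traceM f c v k = zM c (fun i => (f i).map (red v)) k * (Real.sqrt (Ideal.absNorm v.asIdeal)) ^ (k * wt c) := by
  unfold traceM zM wt
  rw [mul_sum, ← prod_pow_eq_pow_sum, ← prod_mul_distrib]
  exact prod_congr rfl fun x _ => ext_nt _ v h2 _ k hk

/-- the powers -/
lemma cpow_split (q : ℕ) (hq : 2 ≤ q) (w k : ℕ) (z : ℂ) :
    (q : ℂ) ^ ((k : ℂ) * ((w : ℂ) / 2 + z)) = ((Real.sqrt q : ℝ) : ℂ) ^ (k * w) * ((q : ℂ) ^ z) ^ k := by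
  have hq0 : (q : ℂ) ≠ 0 := by
    have : q ≠ 0 := by omega
    exact_mod_cast this
  rw [Complex.cpow_nat_mul, Complex.cpow_add _ _ hq0, mul_pow]
  congr 1
  have h1 : (q : ℂ) ^ ((w : ℂ) / 2) = ((Real.sqrt q : ℝ) : ℂ) ^ w := by
    have e : (w : ℂ) / 2 = (w : ℂ) * (1 / 2) := by ring
    rw [e, Complex.cpow_nat_mul]
    congr 1
    rw [Real.sqrt_eq_rpow, Complex.ofReal_cpow (Nat.cast_nonneg q)]
    norm_num
  rw [h1, ← pow_mul, mul_comm w k]

open Classical in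
/-- the logarithm of the quotient of the factors -/
noncomputable def gv (f : Fin s → (𝓞 K)[X]) (c : Jx g → ℕ) (ψ : HeightOneSpectrum (𝓞 K) → ℂ) (z : ℂ) (v : HeightOneSpectrum (𝓞 K)) : ℂ :=
  (if GoodP f v then ∑' k : ℕ, ψ v ^ (k + 1) * traceM f c v (k + 1) / ((k + 1) * (Ideal.absNorm v.asIdeal : ℂ) ^ (((k + 1 : ℕ) : ℂ) * ((wt c : ℂ) / 2 + z))) else 0) -
    (inv c : ℂ) * Complex.log (1 - ψ v * (Ideal.absNorm v.asIdeal : ℂ) ^ (-z))⁻¹

open Classical in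
/-- the local value -/
noncomputable def valM (f : Fin s → (𝓞 K)[X]) (c : Jx g → ℕ) (v : HeightOneSpectrum (𝓞 K)) : ℝ :=
  ((if GoodP f v then traceM f c v 1 / (Real.sqrt (Ideal.absNorm v.asIdeal)) ^ wt c else 0) - inv c) / Ideal.absNorm v.asIdeal

lemma norm_natpow (q : ℕ) (hq : 2 ≤ q) (z : ℂ) : ‖(q : ℂ) ^ (-z)‖ = (q : ℝ) ^ (-z.re) := by
  rw [Complex.norm_natCast_cpow_of_pos (by omega), Complex.neg_re]

lemma small (q : ℕ) (hq : 2 ≤ q) (σ : ℝ) (hσ : 1 / 2 ≤ σ) : (q : ℝ) ^ (-σ) ≤ 3 / 4 := by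
  have hq' : (2 : ℝ) ≤ q := by exact_mod_cast hq
  have h1 : (q : ℝ) ^ (-σ) ≤ (q : ℝ) ^ (-(1 / 2) : ℝ) := Real.rpow_le_rpow_of_exponent_le (by linarith) (by linarith)
  refine h1.trans ?_
  rw [Real.rpow_neg (by linarith), ← Real.sqrt_eq_rpow, inv_le_comm₀ (Real.sqrt_pos.2 (by linarith)) (by norm_num)]
  rw [Real.le_sqrt (by norm_num) (by linarith)]
  norm_num
  linarith

lemma small2 (q : ℕ) (σ : ℝ) : ((q : ℝ) ^ (-σ)) ^ 2 = (q : ℝ) ^ (-(2 * σ)) := by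
  rw [← Real.rpow_natCast, ← Real.rpow_mul (Nat.cast_nonneg q)]
  congr 1
  push_cast
  ring

/-- the sums over the powers -/
lemma tail (M : ℝ) (hM : 0 ≤ M) (a : ℕ → ℂ) (ha : ∀ k, ‖a k‖ ≤ M) (Z : ℂ) (hZ : ‖Z‖ ≤ 3 / 4) :
    ‖(∑' k : ℕ, a k * Z ^ (k + 1) / (k + 1)) - a 0 * Z‖ ≤ 2 * M * ‖Z‖ ^ 2 := by
  have hZ1 : ‖Z‖ < 1 := by linarith
  have hterm : ∀ k : ℕ, ‖a k * Z ^ (k + 1) / (k + 1)‖ ≤ M * ‖Z‖ * ‖Z‖ ^ k := by
    intro k
    have h1 : ‖((k : ℂ) + 1)‖ = (k : ℝ) + 1 := by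
      have : ((k : ℂ) + 1) = ((k + 1 : ℕ) : ℂ) := by push_cast; ring
      rw [this, Complex.norm_natCast]
      push_cast
      ring
    rw [norm_div, norm_mul, norm_pow, h1, div_le_iff₀ (by positivity), mul_assoc M, ← pow_succ']
    have h2 : ‖a k‖ * ‖Z‖ ^ (k + 1) ≤ M * ‖Z‖ ^ (k + 1) := mul_le_mul_of_nonneg_right (ha k) (by positivity)
    refine h2.trans ?_
    have h3 : 0 ≤ M * ‖Z‖ ^ (k + 1) := by positivity
    have h4 : (0 : ℝ) ≤ k := Nat.cast_nonneg k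
    nlinarith
  have hgeo : Summable fun k : ℕ => M * ‖Z‖ * ‖Z‖ ^ k := (summable_geometric_of_lt_one (norm_nonneg _) hZ1).mul_left _
  have hsum : Summable fun k : ℕ => a k * Z ^ (k + 1) / (k + 1) := Summable.of_norm_bounded hgeo hterm
  rw [← hsum.sum_add_tsum_nat_add 1, sum_range_one]
  have e0 : a 0 * Z ^ (0 + 1) / (((0 : ℕ) : ℂ) + 1) = a 0 * Z := by norm_num
  rw [e0, add_sub_cancel_left]
  have hb : HasSum (fun k : ℕ => M / 2 * ‖Z‖ ^ 2 * ‖Z‖ ^ k) (M / 2 * ‖Z‖ ^ 2 * (1 - ‖Z‖)⁻¹) :=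
    (hasSum_geometric_of_lt_one (norm_nonneg _) hZ1).mul_left _
  have h4 : ‖∑' k : ℕ, a (k + 1) * Z ^ (k + 1 + 1) / (((k + 1 : ℕ) : ℂ) + 1)‖ ≤ M / 2 * ‖Z‖ ^ 2 * (1 - ‖Z‖)⁻¹ := by
    refine tsum_of_norm_bounded hb fun k => ?_
    have h1 : ‖(((k + 1 : ℕ) : ℂ) + 1)‖ = (k : ℝ) + 2 := by
      have : (((k + 1 : ℕ) : ℂ) + 1) = ((k + 2 : ℕ) : ℂ) := by push_cast; ring
      rw [this, Complex.norm_natCast]
      push_cast
      ring
    rw [norm_div, norm_mul, norm_pow, h1, div_le_iff₀ (by positivity)]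
    have h2 : ‖a (k + 1)‖ * ‖Z‖ ^ (k + 1 + 1) ≤ M * ‖Z‖ ^ (k + 1 + 1) := mul_le_mul_of_nonneg_right (ha _) (by positivity)
    refine h2.trans ?_
    have e : M / 2 * ‖Z‖ ^ 2 * ‖Z‖ ^ k * ((k : ℝ) + 2) = M * ‖Z‖ ^ (k + 1 + 1) * (((k : ℝ) + 2) / 2) := by ring
    rw [e]
    refine le_mul_of_one_le_right (by positivity) ?_
    have h4 : (0 : ℝ) ≤ k := Nat.cast_nonneg k
    linarith
  refine h4.trans ?_
  have h5 : (1 - ‖Z‖)⁻¹ ≤ 4 := by
    rw [inv_le_comm₀ (by linarith) (by norm_num)]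
    linarith
  calc M / 2 * ‖Z‖ ^ 2 * (1 - ‖Z‖)⁻¹ ≤ M / 2 * ‖Z‖ ^ 2 * 4 := mul_le_mul_of_nonneg_left h5 (by positivity)
    _ = _ := by ring

/-- the expansion of the logarithm -/
theorem gv_expand (g : Fin s → ℕ) (c : Jx g → ℕ) : ∃ C : ℝ, 0 ≤ C ∧ ∀ (t : Jx g → 𝓞 K) (ψ : HeightOneSpectrum (𝓞 K) → ℂ), (∀ v, ‖ψ v‖ ≤ 1) →
    ∀ z : ℂ, 1 / 2 ≤ z.re → ∀ v : HeightOneSpectrum (𝓞 K),
      ‖gv (cu t) c ψ z v - ψ v * (Ideal.absNorm v.asIdeal : ℂ) ^ (1 - z) * valM (cu t) c v‖ ≤ C * (Ideal.absNorm v.asIdeal : ℝ) ^ (-(2 * z.re)) := by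
  classical
  obtain ⟨a, ha⟩ : ∃ a : ℝ, a = 1 + ∑ i, (5 * (2 * g i + 1) : ℝ) := ⟨_, rfl⟩
  have ha1 : 1 ≤ a := by
    rw [ha]
    have : 0 ≤ ∑ i, (5 * (2 * g i + 1) : ℝ) := sum_nonneg fun j _ => by positivity
    linarith
  have hai : ∀ i, (5 * (2 * g i + 1) : ℝ) ≤ a := by
    intro i
    rw [ha]
    have h5 := single_le_sum (f := fun i => (5 * (2 * g i + 1) : ℝ)) (fun i _ => by positivity) (mem_univ i)
    have h6 : (5 * (2 * g i + 1) : ℝ) ≤ ∑ i, (5 * (2 * g i + 1) : ℝ) := h5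
    linarith
  obtain ⟨M, hM⟩ : ∃ M : ℝ, M = a ^ ∑ x, c x := ⟨_, rfl⟩
  have hM1 : 1 ≤ M := by rw [hM]; exact one_le_pow₀ ha1
  refine ⟨2 * M + 2 * inv c, by positivity, fun t ψ hψ z hz v => ?_⟩
  obtain ⟨N, hN⟩ : ∃ N : ℕ, N = Ideal.absNorm v.asIdeal := ⟨_, rfl⟩
  have hN2 : 2 ≤ N := by
    have := two_le v
    rw [← hN] at this
    exact_mod_cast this
  have hNr : (2 : ℝ) ≤ N := by exact_mod_cast hN2
  have hN0 : (N : ℂ) ≠ 0 := by
    have : N ≠ 0 := by omega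
    exact_mod_cast this
  obtain ⟨Z, hZ⟩ : ∃ Z : ℂ, Z = (N : ℂ) ^ (-z) := ⟨_, rfl⟩
  have hZn : ‖Z‖ = (N : ℝ) ^ (-z.re) := by rw [hZ]; exact norm_natpow N hN2 z
  have hZs : ‖Z‖ ≤ 3 / 4 := by rw [hZn]; exact small N hN2 _ hz
  have hZ2 : ‖Z‖ ^ 2 = (N : ℝ) ^ (-(2 * z.re)) := by rw [hZn]; exact small2 N _
  -- the part of zeta
  have hψZ : ‖ψ v * Z‖ ≤ ‖Z‖ := by
    rw [norm_mul]
    exact mul_le_of_le_one_left (norm_nonneg _) (hψ v)
  have hzeta : ‖Complex.log (1 - ψ v * Z)⁻¹ - ψ v * Z‖ ≤ 2 * ‖Z‖ ^ 2 := by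
    have h1 := Complex.norm_log_one_sub_inv_sub_self_le (z := ψ v * Z) (by linarith)
    refine h1.trans ?_
    have h2 : (1 - ‖ψ v * Z‖)⁻¹ ≤ 4 := by
      rw [inv_le_comm₀ (by linarith) (by norm_num)]
      linarith
    have h3 : ‖ψ v * Z‖ ^ 2 ≤ ‖Z‖ ^ 2 := pow_le_pow_left₀ (norm_nonneg _) hψZ 2
    calc ‖ψ v * Z‖ ^ 2 * (1 - ‖ψ v * Z‖)⁻¹ / 2 ≤ ‖Z‖ ^ 2 * 4 / 2 := by
          refine div_le_div_of_nonneg_right ?_ (by norm_num)
          exact mul_le_mul h3 h2 (inv_nonneg.2 (by linarith)) (by positivity)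
      _ = _ := by ring
  have hZ' : (N : ℂ) ^ (1 - z) = N * Z := by
    rw [hZ, sub_eq_add_neg, Complex.cpow_add _ _ hN0, Complex.cpow_one]
  -- the main part
  have hmain : ‖(if GoodP (cu t) v then ∑' k : ℕ, ψ v ^ (k + 1) * traceM (cu t) c v (k + 1) /
      ((k + 1) * (Ideal.absNorm v.asIdeal : ℂ) ^ (((k + 1 : ℕ) : ℂ) * ((wt c : ℂ) / 2 + z))) else 0) -
      ψ v * Z * ((if GoodP (cu t) v then traceM (cu t) c v 1 / (Real.sqrt (Ideal.absNorm v.asIdeal)) ^ wt c else 0 : ℝ) : ℂ)‖ ≤ 2 * M * ‖Z‖ ^ 2 := by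
    by_cases hg : GoodP (cu t) v
    · rw [if_pos hg, if_pos hg]
      let _ : Fintype (Res v) := Fintype.ofFinite _
      have h2 : (2 : Res v) ≠ 0 := (two_iff v).1 hg.1
      have hF := res_ring v h2
      have hmap : ∀ i, ((cu t) i).map (red v) = cu (fun x => red v (t x)) i := fun i => hp_map (red v) _ _
      have hT : ∀ i k, 1 ≤ k → |(T (((cu t) i).map (red v)) k : ℝ)| ≤ a * (Real.sqrt (Fintype.card (Res v))) ^ k := by
        intro i k hk
        rw [hmap i]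
        exact T_all hF a hai i _ k hk
      have hz1 : ∀ k, 1 ≤ k → |zM c (fun i => ((cu t) i).map (red v)) k| ≤ M := by
        intro k hk
        rw [hM]
        exact zM_le c _ a ha1 hT k hk
      have hs0 : (Real.sqrt (Ideal.absNorm v.asIdeal) : ℝ) ≠ 0 := by
        rw [← hN]
        exact (Real.sqrt_pos.2 (by linarith)).ne'
      have hs0' : ((Real.sqrt (Ideal.absNorm v.asIdeal) : ℝ) : ℂ) ≠ 0 := by exact_mod_cast hs0
      have e1 : (∑' k : ℕ, ψ v ^ (k + 1) * traceM (cu t) c v (k + 1) /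
          ((k + 1) * (Ideal.absNorm v.asIdeal : ℂ) ^ (((k + 1 : ℕ) : ℂ) * ((wt c : ℂ) / 2 + z)))) =
          ∑' k : ℕ, (ψ v ^ (k + 1) * (zM c (fun i => ((cu t) i).map (red v)) (k + 1) : ℝ)) * Z ^ (k + 1) / (k + 1) := by
        refine tsum_congr fun k => ?_
        rw [cpow_split _ (hN ▸ hN2), trace_zM (cu t) c v h2 (k + 1) (by omega), ← hN, hZ, Complex.cpow_neg, inv_pow]
        push_cast
        rw [← hN] at hs0'
        have h3 : ((N : ℂ) ^ z) ≠ 0 := by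
          rw [Ne, Complex.cpow_eq_zero_iff]
          exact fun h => hN0 h.1
        have h4 : ((k : ℂ) + 1) ≠ 0 := by
          have : ((k + 1 : ℕ) : ℂ) ≠ 0 := by exact_mod_cast Nat.succ_ne_zero k
          push_cast at this
          exact this
        field_simp
      rw [e1]
      have h3 := tail M (by linarith) (fun k => ψ v ^ (k + 1) * (zM c (fun i => ((cu t) i).map (red v)) (k + 1) : ℝ)) (fun k => by
        rw [norm_mul, norm_pow, Complex.norm_real, Real.norm_eq_abs]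
        calc ‖ψ v‖ ^ (k + 1) * |zM c (fun i => ((cu t) i).map (red v)) (k + 1)| ≤ 1 * M :=
              mul_le_mul (pow_le_one₀ (norm_nonneg _) (hψ v)) (hz1 (k + 1) (by omega)) (abs_nonneg _) (by norm_num)
          _ = M := one_mul M) Z hZs
      have e2 : ψ v * Z * ((traceM (cu t) c v 1 / (Real.sqrt (Ideal.absNorm v.asIdeal)) ^ wt c : ℝ) : ℂ) =
          (ψ v ^ (0 + 1) * (zM c (fun i => ((cu t) i).map (red v)) (0 + 1) : ℝ)) * Z := by
        rw [trace_zM (cu t) c v h2 1 le_rfl, one_mul, mul_div_cancel_right₀ _ (pow_ne_zero _ hs0)]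
        ring
      rw [e2]
      exact h3
    · rw [if_neg hg, if_neg hg]
      simp
      positivity
  unfold gv valM
  rw [← hN] at hmain ⊢
  rw [hZ', ← hZ]
  obtain ⟨A, hA⟩ : ∃ A : ℂ, A = (if GoodP (cu t) v then ∑' k : ℕ, ψ v ^ (k + 1) * traceM (cu t) c v (k + 1) /
      ((k + 1) * (N : ℂ) ^ (((k + 1 : ℕ) : ℂ) * ((wt c : ℂ) / 2 + z))) else 0) := ⟨_, rfl⟩
  obtain ⟨y, hy⟩ : ∃ y : ℝ, y = (if GoodP (cu t) v then traceM (cu t) c v 1 / (Real.sqrt (N : ℝ)) ^ wt c else 0) := ⟨_, rfl⟩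
  rw [← hA, ← hy] at hmain ⊢
  have e3 : A - (inv c : ℂ) * Complex.log (1 - ψ v * Z)⁻¹ - ψ v * (N * Z) * (((y - inv c) / N : ℝ) : ℂ) =
      (A - ψ v * Z * (y : ℂ)) - (inv c : ℂ) * (Complex.log (1 - ψ v * Z)⁻¹ - ψ v * Z) := by
    push_cast
    field_simp
    ring
  rw [e3, ← hZ2]
  refine (norm_sub_le _ _).trans ?_
  rw [norm_mul, Complex.norm_natCast]
  have h5 : (inv c : ℝ) * ‖Complex.log (1 - ψ v * Z)⁻¹ - ψ v * Z‖ ≤ inv c * (2 * ‖Z‖ ^ 2) :=
    mul_le_mul_of_nonneg_left hzeta (Nat.cast_nonneg _)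
  linarith

/-- the products as exponentials -/
theorem product_exp (f : Fin s → (𝓞 K)[X]) (c : Jx g → ℕ) (ψ : HeightOneSpectrum (𝓞 K) → ℂ) (hψ : ∀ v, ‖ψ v‖ ≤ 1) (z : ℂ) (hz : 1 / 2 ≤ z.re) (X : ℕ) :
    productM f c ψ ((wt c : ℂ) / 2 + z) X = Complex.exp (∑ v ∈ SX K X, gv f c ψ z v) * productZ ψ z X ^ inv c ∧ productZ ψ z X ≠ 0 := by
  classical
  have h1 : productM f c ψ ((wt c : ℂ) / 2 + z) X = ∏ v ∈ (SX K X).filter (GoodP f), factorM f c ψ ((wt c : ℂ) / 2 + z) v := by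
    unfold productM
    refine finprod_mem_eq_prod_of_inter_mulSupport_eq _ ?_
    congr 1
    ext v
    rw [Set.mem_ofPred_eq, mem_coe, mem_filter, mem_SX]
    exact and_comm
  have h2 : productZ ψ z X = ∏ v ∈ SX K X, (1 - ψ v * (Ideal.absNorm v.asIdeal : ℂ) ^ (-z))⁻¹ := by
    unfold productZ
    refine finprod_mem_eq_prod_of_inter_mulSupport_eq _ ?_
    congr 1
    ext v
    rw [Set.mem_ofPred_eq, mem_coe, mem_SX]
  have hne : ∀ v : HeightOneSpectrum (𝓞 K), (1 - ψ v * (Ideal.absNorm v.asIdeal : ℂ) ^ (-z)) ≠ 0 := by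
    intro v h
    have hN2 : 2 ≤ Ideal.absNorm v.asIdeal := by
      have := two_le v
      exact_mod_cast this
    have h3 : ‖ψ v * (Ideal.absNorm v.asIdeal : ℂ) ^ (-z)‖ ≤ 3 / 4 := by
      rw [norm_mul, norm_natpow _ hN2]
      calc ‖ψ v‖ * (Ideal.absNorm v.asIdeal : ℝ) ^ (-z.re) ≤ 1 * (3 / 4) :=
            mul_le_mul (hψ v) (small _ hN2 _ hz) (by positivity) (by norm_num)
        _ = _ := one_mul _
    have h4 : ψ v * (Ideal.absNorm v.asIdeal : ℂ) ^ (-z) = 1 := (sub_eq_zero.1 h).symm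
    rw [h4, norm_one] at h3
    linarith
  have h3 : productZ ψ z X = Complex.exp (∑ v ∈ SX K X, Complex.log (1 - ψ v * (Ideal.absNorm v.asIdeal : ℂ) ^ (-z))⁻¹) := by
    rw [h2, Complex.exp_sum]
    exact prod_congr rfl fun v _ => (Complex.exp_log (inv_ne_zero (hne v))).symm
  have h4 : productM f c ψ ((wt c : ℂ) / 2 + z) X = Complex.exp (∑ v ∈ SX K X, if GoodP f v then ∑' k : ℕ, ψ v ^ (k + 1) * traceM f c v (k + 1) /
      ((k + 1) * (Ideal.absNorm v.asIdeal : ℂ) ^ (((k + 1 : ℕ) : ℂ) * ((wt c : ℂ) / 2 + z))) else 0) := by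
    rw [h1, ← sum_filter, Complex.exp_sum]
    rfl
  refine ⟨?_, ?_⟩
  · rw [h3, h4, ← Complex.exp_nat_mul, ← Complex.exp_add]
    congr 1
    rw [mul_sum, ← sum_add_distrib]
    refine sum_congr rfl fun v _ => ?_
    unfold gv
    ring
  · rw [h3]
    exact Complex.exp_ne_zero _

/-- the local data -/
theorem loc_M (K : Type) [Field K] [NumberField K] (g : Fin s → ℕ) (c : Jx g → ℕ) (hc : ∀ i, ∑ j, c ⟨i, j⟩ ≤ 2 * g i + 1) : ∃ B : ℝ, 0 < B ∧
    LocZ K (Jx g) B (fun v t => valM (cu t) c v) := by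
  classical
  obtain ⟨B, hB0, hB⟩ := locM_all g c hc
  obtain ⟨R, hR⟩ : ∃ R : ℝ, R = inv c := ⟨_, rfl⟩
  have hR0 : 0 ≤ R := by rw [hR]; positivity
  obtain ⟨d, hd⟩ : ∃ d : ℕ, d = Module.finrank ℚ K := ⟨_, rfl⟩
  have hval : ∀ (v : HeightOneSpectrum (𝓞 K)) (t : Jx g → 𝓞 K),
      valM (cu t) c v = (@locM (Res v) _ (Fintype.ofFinite _) (Classical.decEq _) s g c (fun i => red v (t i)) - R) / Ideal.absNorm v.asIdeal := by
    intro v t
    let _ : Fintype (Res v) := Fintype.ofFinite _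
    have hs0 : (Real.sqrt (Ideal.absNorm v.asIdeal) : ℝ) ≠ 0 := by
      have := two_le v
      exact (Real.sqrt_pos.2 (by linarith)).ne'
    unfold valM locM GoodP
    rw [← hR]
    have h1 : ∀ i, ((cu t) i).map (red v) = cu (fun i => red v (t i)) i := fun i => hp_map (red v) _ _
    rw [two_iff]
    by_cases hg2 : (2 : Res v) ≠ 0 ∧ ∀ i, Squarefree (((cu t) i).map (red v))
    · rw [if_pos hg2, if_pos ⟨hg2.1, fun j => by rw [← h1]; exact hg2.2 j⟩, trace_zM (cu t) c v hg2.1 1 le_rfl, one_mul,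
        mul_div_cancel_right₀ _ (pow_ne_zero _ hs0)]
      congr 2
      congr 1
      funext i
      exact h1 i
    · rw [if_neg hg2, if_neg]
      rintro ⟨h3, h4⟩
      exact hg2 ⟨h3, fun j => by rw [h1]; exact h4 j⟩
  refine ⟨B + R * 2 ^ d + R, by positivity, fun v => ?_⟩
  let _ : Fintype (Res v) := Fintype.ofFinite _
  obtain ⟨h1, h2⟩ := hB (Res v)
  obtain ⟨q, hq⟩ : ∃ q : ℝ, q = Fintype.card (Res v) := ⟨_, rfl⟩
  have hqN : (Ideal.absNorm v.asIdeal : ℝ) = q := by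
    rw [hq, res_card v]
  have hq2 : 2 ≤ q := by
    rw [← hqN]
    exact two_le v
  have hq0 : 0 < q := by linarith
  have h2d : (1 : ℝ) ≤ 2 ^ d := one_le_pow₀ (by norm_num)
  refine ⟨Res v, inferInstance, inferInstance, red v, fun u => (locM c u - R) / q, red_surj v, res_char v,
    res_card v, fun t => by
      show valM (cu t) c v = (locM c (fun i => red v (t i)) - R) / q
      rw [hval v t, hqN], ?_, ?_⟩
  · intro u
    rw [← hq, abs_div, abs_of_pos hq0]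
    refine div_le_div_of_nonneg_right ?_ hq0.le
    refine (abs_sub _ _).trans ?_
    rw [abs_of_nonneg hR0]
    have h3 := h1 u
    have : 0 ≤ R * 2 ^ d := by positivity
    linarith
  · rw [← hq]
    have e : (fun u : Jx g → Res v => (locM c u - R) / q) = fun u => (1 / q) * (locM c u - R) := by
      funext u
      ring
    rw [e, av_mul, abs_mul, abs_of_pos (by positivity : 0 < 1 / q), av_sub, av_const]
    have hq32 : 0 < q ^ (3 / 2 : ℝ) := by positivity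
    have hsplit : q ^ (3 / 2 : ℝ) = q * q ^ (1 / 2 : ℝ) := by
      rw [← Real.rpow_one_add' hq0.le (by norm_num)]
      norm_num
    have hhalf : q ^ (1 / 2 : ℝ) ≤ q := by
      calc q ^ (1 / 2 : ℝ) ≤ q ^ (1 : ℝ) := Real.rpow_le_rpow_of_exponent_le (by linarith) (by norm_num)
        _ = q := Real.rpow_one q
    have hh0 : 0 < q ^ (1 / 2 : ℝ) := by positivity
    rw [hsplit, ← div_div, one_div, inv_mul_eq_div, div_right_comm]
    refine div_le_div_of_nonneg_right ?_ hq0.le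
    rw [le_div_iff₀ hh0]
    by_cases hF : ringChar (Res v) = 2
    · have h20 : (2 : Res v) = 0 := by
        have := CharP.cast_eq_zero (Res v) (ringChar (Res v))
        rw [hF] at this
        exact_mod_cast this
      have h3 : av (fun u : Jx g → Res v => locM c u) = 0 := by
        have h4 : (fun u : Jx g → Res v => locM c u) = fun _ => 0 := by
          funext u
          unfold locM
          rw [if_neg (fun h => h.1 h20)]
        rw [h4, av_const]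
      rw [h3, zero_sub, abs_neg, abs_of_nonneg hR0]
      have hb : (below v : ℕ) = 2 := by
        have := res_char v
        have h4 := ringChar.eq (Res v) (below v : ℕ)
        rw [hF] at h4
        exact h4.symm
      have hqd : q ≤ 2 ^ d := by
        rw [← hqN, norm_eq, hb]
        push_cast
        refine pow_le_pow_right₀ (by norm_num) ?_
        rw [hd]
        exact deg_le v
      have h5 : R * q ^ (1 / 2 : ℝ) ≤ R * 2 ^ d := mul_le_mul_of_nonneg_left (hhalf.trans hqd) hR0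
      linarith
    · have h3 := h2 hF
      rw [← hq, ← hR, le_div_iff₀ hq0] at h3
      have h5 : |av (fun u : Jx g → Res v => locM c u) - R| * q ^ (1 / 2 : ℝ) ≤ |av (fun u : Jx g → Res v => locM c u) - R| * q :=
        mul_le_mul_of_nonneg_left hhalf (abs_nonneg _)
      have : 0 ≤ R * 2 ^ d := by positivity
      linarith

end

end Q282.TC
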