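import Pool.Agent.Q282.TP.Loc
import Pool.Agent.Q282.HL.Mat
import Pool.Agent.Q282.JK.Defs

/-!
# The local values for the tensor products of exterior powers of the cohomology of hyperelliptic curves
-/

set_option autoImplicit false
set_option linter.unusedSectionVars false

namespace Q282.TC

open Polynomial Finset
open Q282.JK Q282.CL Q282.PX Q282.TP
open Pool.Agent.H341R2.Sharp

/-- the size of the coefficients -/
lemma ec_bound (τ : ℕ → ℝ) (a R : ℝ) (ha : 1 ≤ a) (hR : 0 ≤ R) (h : ∀ r, 1 ≤ r → |τ r| ≤ a * R ^ r) (n : ℕ) :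
    |expCoeff τ n| ≤ a ^ n * R ^ n := by
  induction n using Nat.strong_induction_on with
  | _ n ih =>
    rcases n with _ | n
    · rw [expCoeff]
      simp
    · rw [expCoeff, abs_div, abs_of_pos (by positivity : (0 : ℝ) < (n : ℝ) + 1), div_le_iff₀ (by positivity)]
      refine (abs_sum_le_sum_abs _ _).trans ?_
      have h1 : ∀ r : Fin (n + 1), |expCoeff τ (n - r) * τ (r + 1)| ≤ a ^ (n + 1) * R ^ (n + 1) := by
        intro r
        have hr : (r : ℕ) < n + 1 := r.2
        rw [abs_mul]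
        have h2 := ih (n - r) (by omega)
        have h3 := h (r + 1) (by omega)
        refine (mul_le_mul h2 h3 (abs_nonneg _) (by positivity)).trans ?_
        have e1 : a ^ (n - (r : ℕ)) * R ^ (n - (r : ℕ)) * (a * R ^ ((r : ℕ) + 1)) = (a ^ (n - (r : ℕ)) * a) * (R ^ (n - (r : ℕ)) * R ^ ((r : ℕ) + 1)) := by ring
        rw [e1, ← pow_succ, ← pow_add]
        have e2 : n - (r : ℕ) + ((r : ℕ) + 1) = n + 1 := by omega
        rw [e2]
        refine mul_le_mul_of_nonneg_right ?_ (by positivity)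
        exact pow_le_pow_right₀ ha (by omega)
      refine (sum_le_sum fun r _ => h1 r).trans (le_of_eq ?_)
      rw [sum_const, card_univ, Fintype.card_fin, nsmul_eq_mul]
      push_cast
      ring

/-- the coefficients depend on the first values only -/
lemma ec_congr (τ τ' : ℕ → ℝ) (h : ∀ r, 1 ≤ r → τ r = τ' r) (n : ℕ) : expCoeff τ n = expCoeff τ' n := by
  induction n using Nat.strong_induction_on with
  | _ n ih =>
    rcases n with _ | n
    · rw [expCoeff, expCoeff]
    · rw [expCoeff, expCoeff]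
      congr 1
      refine sum_congr rfl fun r _ => ?_
      have hr : (r : ℕ) < n + 1 := r.2
      rw [ih (n - r) (by omega), h (r + 1) (by omega)]

section finite

variable {F : Type} [Field F] [Fintype F] [DecidableEq F]

/-- the coefficients of the polynomial of Frobenius -/
lemma ec_A (f : F[X]) (n : ℕ) : expCoeff (fun r => (T f r : ℝ)) n = A f n := by
  induction n using Nat.strong_induction_on with
  | _ n ih =>
    rcases n with _ | n
    · rw [expCoeff, A_zero]
      simp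
    · have h1 := n_mul_A f (n + 1)
      have h2 : ((n : ℝ) + 1) * (A f (n + 1) : ℝ) = ∑ r ∈ Icc 1 (n + 1), (A f (n + 1 - r) : ℝ) * T f r := by
        exact_mod_cast h1
      have hn : ((n : ℝ) + 1) ≠ 0 := by positivity
      have h3 : ∀ G : ℕ → ℝ, ∑ r ∈ Icc 1 (n + 1), G r = ∑ r : Fin (n + 1), G (r + 1) := by
        intro G
        rw [Fin.sum_univ_eq_sum_range (fun r => G (r + 1)) (n + 1)]
        symm
        refine sum_nbij' (fun r => r + 1) (fun r => r - 1) ?_ ?_ ?_ ?_ ?_
        · intro r hr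
          rw [mem_range] at hr
          rw [mem_Icc]
          omega
        · intro r hr
          rw [mem_Icc] at hr
          rw [mem_range]
          omega
        · intro r _
          exact Nat.add_sub_cancel r 1
        · intro r hr
          rw [mem_Icc] at hr
          exact Nat.sub_add_cancel hr.1
        · intro r _
          rfl
      rw [expCoeff, div_eq_iff hn, mul_comm _ ((n : ℝ) + 1), h2, h3]
      refine sum_congr rfl fun r _ => ?_
      have hr : (r : ℕ) < n + 1 := r.2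
      rw [ih (n - r) (by omega)]
      congr 3
      omega

/-- the normalised trace of the `k`-th power of Frobenius on the `n`-th exterior power -/
noncomputable def nt (f : F[X]) (n k : ℕ) : ℝ :=
  (-1) ^ n * expCoeff (fun r => (T f (k * r) : ℝ)) n / (Real.sqrt (Fintype.card F)) ^ (k * n)

lemma nt_le (f : F[X]) (a : ℝ) (ha : 1 ≤ a) (hT : ∀ k, 1 ≤ k → |(T f k : ℝ)| ≤ a * (Real.sqrt (Fintype.card F)) ^ k) (n k : ℕ) (hk : 1 ≤ k) :
    |nt f n k| ≤ a ^ n := by
  have hq0 : (0 : ℝ) < Fintype.card F := by exact_mod_cast Fintype.card_pos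
  have hs0 : 0 < Real.sqrt (Fintype.card F) := Real.sqrt_pos.2 hq0
  unfold nt
  rw [abs_div, abs_mul, abs_pow, abs_neg, abs_one, one_pow, one_mul, abs_of_pos (by positivity : 0 < (Real.sqrt (Fintype.card F)) ^ (k * n)),
    div_le_iff₀ (by positivity), pow_mul]
  refine ec_bound _ a _ ha (by positivity) (fun r hr => ?_) n
  have h1 := hT (k * r) (Nat.mul_pos hk hr)
  rwa [pow_mul] at h1

variable {s : ℕ} {g : Fin s → ℕ}

/-- the normalised trace on the tensor product -/
noncomputable def zM (c : Jx g → ℕ) (f : Fin s → F[X]) (k : ℕ) : ℝ := ∏ x : Jx g, nt (f x.1) (c x) k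

lemma zM_le (c : Jx g → ℕ) (f : Fin s → F[X]) (a : ℝ) (ha : 1 ≤ a)
    (hT : ∀ i k, 1 ≤ k → |(T (f i) k : ℝ)| ≤ a * (Real.sqrt (Fintype.card F)) ^ k) (k : ℕ) (hk : 1 ≤ k) :
    |zM c f k| ≤ a ^ ∑ x, c x := by
  unfold zM
  rw [abs_prod, ← prod_pow_eq_pow_sum]
  exact prod_le_prod (fun x _ => abs_nonneg _) fun x _ => nt_le (f x.1) a ha (hT x.1) (c x) k hk

/-- the number of the invariants -/
noncomputable def inv (c : Jx g → ℕ) : ℕ := ∏ i, Q282.HL.symm fun j => c ⟨i, j⟩

lemma T_all (hF : ringChar F ≠ 2) (a : ℝ) (ha : ∀ i, (5 * (2 * g i + 1) : ℝ) ≤ a) (i : Fin s) (u : Fin (2 * g i + 1) → F) (k : ℕ) (hk : 1 ≤ k) :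
    |(T (hp (2 * g i + 1) u) k : ℝ)| ≤ a * (Real.sqrt (Fintype.card F)) ^ k := by
  have h4 := (T_bound hF (hp_monic _ u) (by rw [hp_natDegree]; omega) (odd_ns (hp_monic _ u) (hp_natDegree _ u)) k hk).1
  rw [hp_natDegree] at h4
  refine h4.trans ?_
  have h7 : ((5 * (2 * g i + 1) : ℝ)) * (Real.sqrt (Fintype.card F)) ^ k ≤ a * (Real.sqrt (Fintype.card F)) ^ k :=
    mul_le_mul_of_nonneg_right (ha i) (by positivity)
  refine le_trans (le_of_eq ?_) h7
  push_cast
  ring

/-- the number of the matrices vanishes if the sum is odd -/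
lemma GR_sign {m : ℕ} (i : Fin m → ℕ) : (-1 : ℝ) ^ (∑ j, i j) * (Q282.HL.GR i).card = (Q282.HL.GR i).card := by
  rcases (Q282.HL.GR i).eq_empty_or_nonempty with h | ⟨n, hn⟩
  · rw [h, card_empty]
    simp
  · have h1 := Q282.HL.sum_of_degrees (Q282.HL.mem_GR.1 hn)
    rw [h1, pow_mul]
    norm_num

/-- the means for one curve -/
lemma mean_one (hF : ringChar F ≠ 2) (D : ℕ) (i : Fin D → ℕ) (hi : ∑ j, i j ≤ D) :
    |av (fun u : Fin D → F => ∏ j, nt (hp D u) (i j) 1) - Q282.HL.symm i| ≤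
      (((Q282.HL.GR i).card * ((Fintype.card (Q282.HL.Edge D) : ℝ) ^ 2 * (∑ j, i j : ℕ)) + (Q282.HL.GR i).card * D)) / Fintype.card F := by
  have h1 := Q282.HL.mean_prod_A (K := F) hF D i hi
  have hc : (Fintype.card (Fin D → F) : ℝ) = (Fintype.card F : ℝ) ^ D := by
    rw [Fintype.card_fun, Fintype.card_fin]
    push_cast
    rfl
  have h2 : ∀ u : Fin D → F, ∏ j, nt (hp D u) (i j) 1 = (-1) ^ (∑ j, i j) * ∏ j, ((A (Q282.HL.mpol D u) (i j) : ℝ) / (Real.sqrt (Fintype.card F)) ^ i j) := by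
    intro u
    rw [← prod_pow_eq_pow_sum, ← prod_mul_distrib]
    refine prod_congr rfl fun j _ => ?_
    unfold nt
    simp only [one_mul]
    rw [ec_A, mul_div_assoc]
    rfl
  have h3 : av (fun u : Fin D → F => ∏ j, nt (hp D u) (i j) 1) = (-1) ^ (∑ j, i j) *
      ((∑ u : Fin D → F, ∏ j, ((A (Q282.HL.mpol D u) (i j) : ℝ) / (Real.sqrt (Fintype.card F)) ^ i j)) / (Fintype.card F : ℝ) ^ D) := by
    unfold av
    rw [hc, ← mul_div_assoc, mul_sum]
    congr 1
    exact sum_congr rfl fun u _ => h2 u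
  have h4 : (Q282.HL.symm i : ℝ) = (-1) ^ (∑ j, i j) * (Q282.HL.GR i).card := by
    rw [GR_sign, Q282.HL.card_GR]
  rw [h3, h4, ← mul_sub, abs_mul, abs_pow, abs_neg, abs_one, one_pow, one_mul]
  exact h1

open Classical in
/-- the local value -/
noncomputable def locM (c : Jx g → ℕ) (u : Jx g → F) : ℝ :=
  if (2 : F) ≠ 0 ∧ ∀ i, Squarefree (cu u i) then zM c (cu u) 1 else 0

end finite

open Classical in
/-- the bounds and the means of the local values -/
theorem locM_all {s : ℕ} (g : Fin s → ℕ) (c : Jx g → ℕ) (hc : ∀ i, ∑ j, c ⟨i, j⟩ ≤ 2 * g i + 1) :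
    ∃ B : ℝ, 0 < B ∧ ∀ (F : Type) [Field F] [Fintype F] [DecidableEq F],
    (∀ u : Jx g → F, |locM c u| ≤ B) ∧
    (ringChar F ≠ 2 → |av (fun u : Jx g → F => locM c u) - inv c| ≤ B / Fintype.card F) := by
  obtain ⟨a, ha⟩ : ∃ a : ℝ, a = 1 + ∑ i, (5 * (2 * g i + 1) : ℝ) := ⟨_, rfl⟩
  have ha1 : 1 ≤ a := by
    rw [ha]
    have : 0 ≤ ∑ i, (5 * (2 * g i + 1) : ℝ) := sum_nonneg fun j _ => by positivity
    linarith
  have hai : ∀ i, (5 * (2 * g i + 1) : ℝ) ≤ a := by
    intro i
    rw [ha]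
    have h5 := single_le_sum (f := fun i => (5 * (2 * g i + 1) : ℝ)) (fun i _ => by positivity) (mem_univ i)
    have h6 : (5 * (2 * g i + 1) : ℝ) ≤ ∑ i, (5 * (2 * g i + 1) : ℝ) := h5
    linarith
  obtain ⟨M, hM⟩ : ∃ M : ℝ, M = a ^ ∑ x, c x := ⟨_, rfl⟩
  have hM1 : 1 ≤ M := by rw [hM]; exact one_le_pow₀ ha1
  obtain ⟨κ, hκ⟩ : ∃ κ : Fin s → ℝ, κ = fun i => ((Q282.HL.GR fun j => c ⟨i, j⟩).card * ((Fintype.card (Q282.HL.Edge (2 * g i + 1)) : ℝ) ^ 2 *
      (∑ j, c ⟨i, j⟩ : ℕ)) + (Q282.HL.GR fun j => c ⟨i, j⟩).card * (2 * g i + 1 : ℕ)) := ⟨_, rfl⟩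
  have hκ0 : ∀ i, 0 ≤ κ i := fun i => by rw [hκ]; positivity
  obtain ⟨Δ, hΔ⟩ : ∃ Δ : ℝ, Δ = ∑ i, κ i := ⟨_, rfl⟩
  have hΔ0 : 0 ≤ Δ := by rw [hΔ]; exact sum_nonneg fun i _ => hκ0 i
  obtain ⟨N, hN⟩ : ∃ N : ℝ, N = M + ∑ i, (Q282.HL.symm (fun j => c ⟨i, j⟩) : ℝ) + 1 := ⟨_, rfl⟩
  have hN1 : 1 ≤ N := by
    rw [hN]
    have : 0 ≤ ∑ i, (Q282.HL.symm (fun j => c ⟨i, j⟩) : ℝ) := sum_nonneg fun i _ => Nat.cast_nonneg _
    linarith
  obtain ⟨Γ, hΓ⟩ : ∃ Γ : ℝ, Γ = ∑ i : Fin s, (g i : ℝ) := ⟨_, rfl⟩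
  have hΓ0 : 0 ≤ Γ := by rw [hΓ]; positivity
  refine ⟨M + M * Γ + s * N ^ s * Δ, by positivity, fun F _ _ _ => ?_⟩
  obtain ⟨q, hq⟩ : ∃ q : ℝ, q = Fintype.card F := ⟨_, rfl⟩
  have hq1 : (1 : ℝ) ≤ q := by rw [hq]; exact_mod_cast Fintype.card_pos
  have hq0 : 0 < q := by linarith
  have hpos : 0 ≤ M * Γ := by positivity
  have hpos' : 0 ≤ (s : ℝ) * N ^ s * Δ := by positivity
  by_cases hF : ringChar F = 2
  · refine ⟨fun u => ?_, fun h => absurd hF h⟩
    unfold locM
    have h2 : (2 : F) = 0 := by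
      have := CharP.cast_eq_zero F (ringChar F)
      rw [hF] at this
      exact_mod_cast this
    rw [if_neg (fun h => h.1 h2), abs_zero]
    positivity
  have hTu : ∀ (u : Jx g → F) (i : Fin s) (k : ℕ), 1 ≤ k → |(T (cu u i) k : ℝ)| ≤ a * (Real.sqrt (Fintype.card F)) ^ k := by
    intro u i k hk
    exact T_all hF a hai i _ k hk
  obtain ⟨z, hz⟩ : ∃ z : (Jx g → F) → ℝ, z = fun u => zM c (cu u) 1 := ⟨_, rfl⟩
  have hzM : ∀ u, |z u| ≤ M := by
    intro u
    rw [hz, hM]
    exact zM_le c (cu u) a ha1 (hTu u) 1 le_rfl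
  have hbound : ∀ u : Jx g → F, |locM c u - z u| ≤ if ∃ i, ¬ Squarefree (cu u i) then M else 0 := by
    intro u
    unfold locM
    by_cases hu : ∃ i, ¬ Squarefree (cu u i)
    · rw [if_pos hu, if_neg (fun h => by
        obtain ⟨j, hj⟩ := hu
        exact hj (h.2 j)), zero_sub, abs_neg]
      exact hzM u
    · rw [if_neg hu]
      push Not at hu
      rw [if_pos ⟨Ring.two_ne_zero hF, hu⟩, hz, sub_self, abs_zero]
  refine ⟨fun u => ?_, fun _ => ?_⟩
  · unfold locM
    split_ifs with h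
    · have h3 := hzM u
      rw [hz] at h3
      refine h3.trans ?_
      linarith
    · rw [abs_zero]
      linarith
  · have hcurry : ∀ φ : (Jx g → F) → ℝ, av φ = av (fun ω : (∀ i : Fin s, Fin (2 * g i + 1) → F) => φ (fun k => ω k.1 k.2)) := by
      intro φ
      have h3 := av_equiv (Equiv.piCurry (fun (i : Fin s) (_ : Fin (2 * g i + 1)) => F)).symm φ
      rw [h3]
      rfl
    have hbad : av (fun u : Jx g → F => if ∃ i, ¬ Squarefree (cu u i) then M else 0) ≤ M * Γ / q := by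
      have h3 : ∀ u : Jx g → F, (if ∃ i, ¬ Squarefree (cu u i) then M else 0) ≤
          ∑ i, M * (if ¬ Squarefree (cu u i) then (1 : ℝ) else 0) := by
        intro u
        by_cases hu : ∃ i, ¬ Squarefree (cu u i)
        · rw [if_pos hu]
          obtain ⟨i, hi⟩ := hu
          refine le_trans ?_ (single_le_sum (f := fun i => M * (if ¬ Squarefree (cu u i) then (1 : ℝ) else 0)) (fun i _ => by
            exact mul_nonneg (by positivity) (by split_ifs <;> norm_num)) (mem_univ i))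
          show M ≤ M * (if ¬ Squarefree (cu u i) then (1 : ℝ) else 0)
          rw [if_pos hi, mul_one]
        · rw [if_neg hu]
          exact sum_nonneg fun i _ => mul_nonneg (by positivity) (by split_ifs <;> norm_num)
      refine (av_mono h3).trans ?_
      rw [av_sum]
      have h4 : ∀ i : Fin s, av (fun u : Jx g → F => M * (if ¬ Squarefree (cu u i) then (1 : ℝ) else 0)) ≤ M * (g i / q) := by
        intro i₀
        rw [av_mul]
        refine mul_le_mul_of_nonneg_left ?_ (by positivity)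
        rw [hcurry]
        have h5 : (fun ω : (∀ i : Fin s, Fin (2 * g i + 1) → F) => if ¬ Squarefree (cu (g := g) (fun k => ω k.1 k.2) i₀) then (1 : ℝ) else 0) =
            fun ω => ∏ i, (fun (i : Fin s) (u : Fin (2 * g i + 1) → F) => if i = i₀ then (if ¬ Squarefree (hp (2 * g i + 1) u) then (1 : ℝ) else 0) else 1) i (ω i) := by
          funext ω
          rw [prod_eq_single i₀]
          · show (if ¬ Squarefree (cu (g := g) (fun k => ω k.1 k.2) i₀) then (1 : ℝ) else 0) =
              if i₀ = i₀ then (if ¬ Squarefree (hp (2 * g i₀ + 1) (ω i₀)) then (1 : ℝ) else 0) else 1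
            rw [if_pos (rfl : i₀ = i₀)]
            rfl
          · intro i _ hi
            exact if_neg hi
          · intro h
            exact absurd (mem_univ _) h
        rw [h5, av_pi (fun (i : Fin s) (u : Fin (2 * g i + 1) → F) => if i = i₀ then (if ¬ Squarefree (hp (2 * g i + 1) u) then (1 : ℝ) else 0) else 1),
          prod_eq_single i₀]
        · simp only [if_true]
          rw [hq]
          exact bad_av (g i₀)
        · intro i _ hi
          simp only [if_neg hi]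
          exact av_const _
        · intro h
          exact absurd (mem_univ _) h
      refine (sum_le_sum fun j _ => h4 j).trans (le_of_eq ?_)
      rw [← mul_sum, ← sum_div, hΓ]
      ring
    have hmain : |av z - inv c| ≤ s * N ^ s * Δ / q := by
      have e1 : z = fun u => ∏ i, ∏ j, nt (cu u i) (c ⟨i, j⟩) 1 := by
        rw [hz]
        funext u
        unfold zM
        rw [← univ_sigma_univ, prod_sigma]
      rw [e1, hcurry]
      have h4 : (fun ω : (∀ i : Fin s, Fin (2 * g i + 1) → F) => ∏ i, ∏ j, nt (cu (g := g) (fun k => ω k.1 k.2) i) (c ⟨i, j⟩) 1) =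
          fun ω => ∏ i, (fun (i : Fin s) (u : Fin (2 * g i + 1) → F) => ∏ j, nt (hp (2 * g i + 1) u) (c ⟨i, j⟩) 1) i (ω i) := rfl
      rw [h4, av_pi (fun (i : Fin s) (u : Fin (2 * g i + 1) → F) => ∏ j, nt (hp (2 * g i + 1) u) (c ⟨i, j⟩) 1)]
      have hx : ∀ (i : Fin s) (u : Fin (2 * g i + 1) → F), |∏ j, nt (hp (2 * g i + 1) u) (c ⟨i, j⟩) 1| ≤ M := by
        intro i u
        rw [abs_prod]
        have h5 : ∏ j, |nt (hp (2 * g i + 1) u) (c ⟨i, j⟩) 1| ≤ ∏ j : Fin (2 * g i + 1), a ^ c ⟨i, j⟩ :=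
          prod_le_prod (fun j _ => abs_nonneg _) fun j _ => nt_le _ a ha1 (T_all hF a hai i u) _ 1 le_rfl
        refine h5.trans ?_
        rw [prod_pow_eq_pow_sum, hM]
        refine pow_le_pow_right₀ ha1 ?_
        rw [← univ_sigma_univ, sum_sigma]
        exact single_le_sum (f := fun i => ∑ j, c ⟨i, j⟩) (fun _ _ => Nat.zero_le _) (mem_univ i)
      have hsy : ∀ i, (Q282.HL.symm (fun j => c ⟨i, j⟩) : ℝ) ≤ ∑ i, (Q282.HL.symm (fun j => c ⟨i, j⟩) : ℝ) := by
        intro i
        exact single_le_sum (f := fun i => (Q282.HL.symm (fun j => c ⟨i, j⟩) : ℝ)) (fun _ _ => Nat.cast_nonneg _) (mem_univ i)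
      have hsy0 : 0 ≤ ∑ i, (Q282.HL.symm (fun j => c ⟨i, j⟩) : ℝ) := sum_nonneg fun i _ => Nat.cast_nonneg _
      have hnear := prod_near (univ : Finset (Fin s)) (fun i => av (fun u : Fin (2 * g i + 1) → F => ∏ j, nt (hp (2 * g i + 1) u) (c ⟨i, j⟩) 1))
        (fun i => (Q282.HL.symm (fun j => c ⟨i, j⟩) : ℝ)) N (Δ / q) hN1 (by positivity) (fun i => by
          refine (abs_av_le_const (hx i)).trans ?_
          rw [hN]
          linarith) (fun i => by
          rw [abs_of_nonneg (Nat.cast_nonneg _), hN]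
          have := hsy i
          linarith) (fun i => by
          have h5 := mean_one (F := F) hF (2 * g i + 1) (fun j => c ⟨i, j⟩) (hc i)
          rw [← hq] at h5
          refine h5.trans (div_le_div_of_nonneg_right ?_ hq0.le)
          rw [hΔ]
          have h6 : κ i ≤ ∑ i, κ i := single_le_sum (f := κ) (fun k _ => hκ0 k) (mem_univ i)
          refine le_trans (le_of_eq ?_) h6
          rw [hκ])
      rw [card_univ, Fintype.card_fin] at hnear
      unfold inv
      push_cast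
      refine hnear.trans (le_of_eq ?_)
      ring
    have h3 : av (fun u : Jx g → F => locM c u) - inv c = av (fun u => locM c u - z u) + (av z - inv c) := by
      rw [av_sub]
      ring
    rw [← hq, h3]
    have h4 : |av (fun u => locM c u - z u)| ≤ M * Γ / q := (abs_av_le _).trans ((av_mono hbound).trans hbad)
    refine (abs_add_le _ _).trans ((add_le_add h4 hmain).trans ?_)
    rw [← add_div]
    refine div_le_div_of_nonneg_right ?_ hq0.le
    linarith

end Q282.TC
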